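import Mathlib

/-!
# Projective maps of the circle

`XX x α` is the lift of the projective map `[cos θ : sin θ] ↦ [cos θ : exp α * sin θ]`, `θ = π x`.
-/

set_option autoImplicit false

open Real Set Filter Topology
open scoped ContDiff

namespace Pool.Agent.N252.HC

noncomputable section

/-- numerator -/
def nn (x α : ℝ) : ℝ := (exp α - 1) * (sin (π * x) * cos (π * x))

/-- denominator -/
def dd (x α : ℝ) : ℝ := cos (π * x) ^ 2 + exp α * sin (π * x) ^ 2

/-- the lift of the projective map -/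
def XX (x α : ℝ) : ℝ := x + 1 / π * arctan (nn x α / dd x α)

lemma dd_pos (x α : ℝ) : 0 < dd x α := by
  unfold dd
  have h1 := sin_sq_add_cos_sq (π * x)
  have h2 := exp_pos α
  rcases eq_or_ne (sin (π * x)) 0 with h | h
  · rw [h] at h1 ⊢
    nlinarith
  · have : 0 < sin (π * x) ^ 2 := by positivity
    positivity

/-- the square of the norm of `(cos θ, exp α * sin θ)` -/
def qq (x α : ℝ) : ℝ := cos (π * x) ^ 2 + exp α ^ 2 * sin (π * x) ^ 2

lemma qq_pos (x α : ℝ) : 0 < qq x α := by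
  unfold qq
  have h1 := sin_sq_add_cos_sq (π * x)
  have h2 := exp_pos α
  rcases eq_or_ne (sin (π * x)) 0 with h | h
  · rw [h] at h1 ⊢
    nlinarith
  · have : 0 < sin (π * x) ^ 2 := by positivity
    positivity

lemma dd_sq_add_nn_sq (x α : ℝ) : dd x α ^ 2 + nn x α ^ 2 = qq x α := by
  unfold dd nn qq
  have h1 := sin_sq_add_cos_sq (π * x)
  have h2 : sin (π * x) ^ 2 = 1 - cos (π * x) ^ 2 := by linarith
  rw [mul_pow, mul_pow, h2]
  ring

lemma XX_mul_pi (x α : ℝ) : π * XX x α = π * x + arctan (nn x α / dd x α) := by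
  unfold XX
  have := pi_pos
  field_simp

lemma cos_arctan_div (x α : ℝ) : cos (arctan (nn x α / dd x α)) = dd x α / √(qq x α) := by
  have hd := dd_pos x α
  have hq := qq_pos x α
  rw [cos_arctan]
  have h : 1 + (nn x α / dd x α) ^ 2 = qq x α / dd x α ^ 2 := by
    rw [← dd_sq_add_nn_sq]
    field_simp
  rw [h, Real.sqrt_div hq.le, Real.sqrt_sq hd.le]
  have : 0 < √(qq x α) := Real.sqrt_pos.2 hq
  field_simp

lemma sin_arctan_div (x α : ℝ) : sin (arctan (nn x α / dd x α)) = nn x α / √(qq x α) := by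
  have hd := dd_pos x α
  have hq := qq_pos x α
  rw [sin_arctan]
  have h : 1 + (nn x α / dd x α) ^ 2 = qq x α / dd x α ^ 2 := by
    rw [← dd_sq_add_nn_sq]
    field_simp
  rw [h, Real.sqrt_div hq.le, Real.sqrt_sq hd.le]
  have : 0 < √(qq x α) := Real.sqrt_pos.2 hq
  field_simp

lemma cos_pi_XX (x α : ℝ) : cos (π * XX x α) = cos (π * x) / √(qq x α) := by
  rw [XX_mul_pi, cos_add, cos_arctan_div, sin_arctan_div]
  have hq := qq_pos x α
  have : 0 < √(qq x α) := Real.sqrt_pos.2 hq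
  field_simp
  unfold dd nn
  have h1 := sin_sq_add_cos_sq (π * x)
  have h2 : sin (π * x) ^ 2 = 1 - cos (π * x) ^ 2 := by linarith
  linear_combination (cos (π * x)) * h1

lemma sin_pi_XX (x α : ℝ) : sin (π * XX x α) = exp α * sin (π * x) / √(qq x α) := by
  rw [XX_mul_pi, sin_add, cos_arctan_div, sin_arctan_div]
  have hq := qq_pos x α
  have : 0 < √(qq x α) := Real.sqrt_pos.2 hq
  field_simp
  unfold dd nn
  have h1 := sin_sq_add_cos_sq (π * x)
  linear_combination (exp α * sin (π * x)) * h1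

lemma abs_XX_sub (x α : ℝ) : |XX x α - x| < 1 / 2 := by
  unfold XX
  have hp := pi_pos
  rw [add_sub_cancel_left, abs_mul, abs_of_pos (by positivity : 0 < 1 / π)]
  have h1 := abs_lt.2 ⟨neg_pi_div_two_lt_arctan (nn x α / dd x α), arctan_lt_pi_div_two _⟩
  calc 1 / π * |arctan (nn x α / dd x α)| < 1 / π * (π / 2) := by
        apply mul_lt_mul_of_pos_left _ (by positivity)
        exact h1
    _ = 1 / 2 := by field_simp

lemma XX_add_one (x α : ℝ) : XX (x + 1) α = XX x α + 1 := by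
  unfold XX nn dd
  have h1 : sin (π * (x + 1)) = - sin (π * x) := by rw [mul_add, mul_one, sin_add_pi]
  have h2 : cos (π * (x + 1)) = - cos (π * x) := by rw [mul_add, mul_one, cos_add_pi]
  rw [h1, h2]
  simp only [neg_mul_neg, even_two, Even.neg_pow]
  ring

/-- cosine of `2 π x` of the image -/
lemma cos_two_pi_XX (x α : ℝ) : cos (2 * π * XX x α) =
    (cos (2 * π * x) * cosh α - sinh α) / (cosh α - cos (2 * π * x) * sinh α) := by
  have hq := qq_pos x α
  have e1 : 2 * π * XX x α = 2 * (π * XX x α) := by ring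
  have e2 : 2 * π * x = 2 * (π * x) := by ring
  rw [e1, cos_two_mul, cos_pi_XX, e2, cos_two_mul, cosh_eq, sinh_eq, exp_neg]
  rw [div_pow, Real.sq_sqrt hq.le]
  have hE := exp_pos α
  have h1 := sin_sq_add_cos_sq (π * x)
  have h2 : sin (π * x) ^ 2 = 1 - cos (π * x) ^ 2 := by linarith
  have h3 : 0 < cos (π * x) ^ 2 + exp α ^ 2 * (1 - cos (π * x) ^ 2) := by
    rw [← h2]; exact hq
  have h4 : (exp α + (exp α)⁻¹) / 2 - (2 * cos (π * x) ^ 2 - 1) * ((exp α - (exp α)⁻¹) / 2)
      = (cos (π * x) ^ 2 + exp α ^ 2 * (1 - cos (π * x) ^ 2)) / exp α := by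
    field_simp
    ring
  rw [h4]
  unfold qq
  rw [h2]
  field_simp
  ring

lemma sin_two_pi_XX (x α : ℝ) : sin (2 * π * XX x α) =
    sin (2 * π * x) / (cosh α - cos (2 * π * x) * sinh α) := by
  have hq := qq_pos x α
  have hs : 0 < √(qq x α) := Real.sqrt_pos.2 hq
  have e1 : 2 * π * XX x α = 2 * (π * XX x α) := by ring
  have e2 : 2 * π * x = 2 * (π * x) := by ring
  rw [e1, sin_two_mul, sin_pi_XX, cos_pi_XX, e2, sin_two_mul, cos_two_mul, cosh_eq, sinh_eq,
    exp_neg]
  have hE := exp_pos α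
  have h1 := sin_sq_add_cos_sq (π * x)
  have h2 : sin (π * x) ^ 2 = 1 - cos (π * x) ^ 2 := by linarith
  have h3 : 0 < cos (π * x) ^ 2 + exp α ^ 2 * (1 - cos (π * x) ^ 2) := by
    rw [← h2]; exact hq
  have h4 : (exp α + (exp α)⁻¹) / 2 - (2 * cos (π * x) ^ 2 - 1) * ((exp α - (exp α)⁻¹) / 2)
      = (cos (π * x) ^ 2 + exp α ^ 2 * (1 - cos (π * x) ^ 2)) / exp α := by
    field_simp
    ring
  rw [h4]
  have h5 : √(qq x α) * √(qq x α) = cos (π * x) ^ 2 + exp α ^ 2 * (1 - cos (π * x) ^ 2) := by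
    rw [Real.mul_self_sqrt hq.le, ← h2]; rfl
  have h6 : 2 * (exp α * sin (π * x) / √(qq x α)) * (cos (π * x) / √(qq x α)) =
      2 * (exp α * sin (π * x) * cos (π * x)) / (√(qq x α) * √(qq x α)) := by
    field_simp
  rw [h6, h5]
  field_simp

/-- if the cosine and sine agree then the points differ by an integer -/
lemma exists_int_of_cos_sin {u v : ℝ} (hc : cos (2 * π * u) = cos (2 * π * v))
    (hs : sin (2 * π * u) = sin (2 * π * v)) : ∃ k : ℤ, u = v + k := by
  have h := Real.Angle.cos_sin_inj hc hs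
  rw [Real.Angle.angle_eq_iff_two_pi_dvd_sub] at h
  obtain ⟨k, hk⟩ := h
  refine ⟨k, ?_⟩
  have hp := pi_pos
  have : 2 * π * (u - v - k) = 0 := by linarith
  rcases mul_eq_zero.1 this with h | h
  · exfalso; linarith
  · linarith

lemma den_pos (c α : ℝ) (h1 : -1 ≤ c) (h2 : c ≤ 1) : 0 < cosh α - c * sinh α := by
  rw [cosh_eq, sinh_eq]
  have hE := exp_pos α
  have hE' := exp_pos (-α)
  rcases eq_or_lt_of_le h2 with h | h
  · rw [h]; linarith
  · nlinarith

lemma XX_XX_neg (x α : ℝ) : XX (XX x α) (-α) = x := by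
  have hc1 := neg_one_le_cos (2 * π * x)
  have hc2 := cos_le_one (2 * π * x)
  have hden := den_pos (cos (2 * π * x)) α hc1 hc2
  have hcs := cosh_sq_sub_sinh_sq α
  have hden2 : cosh α + (cos (2 * π * x) * cosh α - sinh α) /
      (cosh α - cos (2 * π * x) * sinh α) * sinh α =
      1 / (cosh α - cos (2 * π * x) * sinh α) := by
    field_simp
    linear_combination hcs
  obtain ⟨k, hk⟩ : ∃ k : ℤ, XX (XX x α) (-α) = x + k := by
    apply exists_int_of_cos_sin
    · rw [cos_two_pi_XX, cos_two_pi_XX, cosh_neg, sinh_neg, mul_neg, sub_neg_eq_add,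
        sub_neg_eq_add, hden2]
      field_simp
      linear_combination (cos (2 * π * x)) * hcs
    · rw [sin_two_pi_XX, sin_two_pi_XX, cos_two_pi_XX, cosh_neg, sinh_neg, mul_neg,
        sub_neg_eq_add, hden2]
      field_simp
  have h1 := abs_XX_sub x α
  have h2 := abs_XX_sub (XX x α) (-α)
  have h3 : |(k : ℝ)| < 1 := by
    have : (k : ℝ) = (XX (XX x α) (-α) - XX x α) + (XX x α - x) := by rw [hk]; ring
    rw [this]
    calc |(XX (XX x α) (-α) - XX x α) + (XX x α - x)|
        ≤ |XX (XX x α) (-α) - XX x α| + |XX x α - x| := abs_add_le _ _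
      _ < 1 := by linarith
  have h4 : k = 0 := by
    have : |k| < 1 := by exact_mod_cast h3
    exact Int.abs_lt_one_iff.1 this
  rw [hk, h4]; simp

lemma XX_neg_XX (x α : ℝ) : XX (XX x (-α)) α = x := by
  have := XX_XX_neg x (-α)
  rwa [neg_neg] at this

lemma contDiff_XX : ContDiff ℝ ∞ (fun p : ℝ × ℝ => XX p.1 p.2) := by
  unfold XX nn dd
  apply ContDiff.add contDiff_fst
  apply contDiff_const.mul
  apply ContDiff.arctan
  apply ContDiff.div
  · fun_prop
  · fun_prop
  · intro p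
    exact (dd_pos p.1 p.2).ne'

lemma XX_of_nn {x α : ℝ} (h : nn x α = 0) : XX x α = x := by
  unfold XX
  rw [h]; simp

/-- the derivative at a point where the numerator vanishes -/
lemma hasFDerivAt_XX {x α : ℝ} (h : nn x α = 0) :
    HasFDerivAt (fun p : ℝ × ℝ => XX p.1 p.2)
      ((1 + (exp α - 1) * cos (2 * π * x) / dd x α) • ContinuousLinearMap.fst ℝ ℝ ℝ +
        (exp α * sin (2 * π * x) / (2 * π * dd x α)) • ContinuousLinearMap.snd ℝ ℝ ℝ) (x, α) := by
  have hp := pi_pos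
  have hd := dd_pos x α
  have hS : HasFDerivAt (fun p : ℝ × ℝ => sin (π * p.1))
      ((π * cos (π * x)) • ContinuousLinearMap.fst ℝ ℝ ℝ) (x, α) := by
    refine (((hasFDerivAt_fst (𝕜 := ℝ) (E := ℝ) (F := ℝ) (p := (x, α))).const_mul π)).sin.congr_fderiv
      ?_
    ext <;> simp <;> ring
  have hC : HasFDerivAt (fun p : ℝ × ℝ => cos (π * p.1))
      ((-(π * sin (π * x))) • ContinuousLinearMap.fst ℝ ℝ ℝ) (x, α) := by
    refine (((hasFDerivAt_fst (𝕜 := ℝ) (E := ℝ) (F := ℝ) (p := (x, α))).const_mul π)).cos.congr_fderiv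
      ?_
    ext <;> simp <;> ring
  have hE : HasFDerivAt (fun p : ℝ × ℝ => exp p.2)
      ((exp α) • ContinuousLinearMap.snd ℝ ℝ ℝ) (x, α) :=
    ((hasFDerivAt_snd (𝕜 := ℝ) (E := ℝ) (F := ℝ) (p := (x, α)))).exp
  have hN : HasFDerivAt (fun p : ℝ × ℝ => nn p.1 p.2)
      ((π * (exp α - 1) * cos (2 * π * x)) • ContinuousLinearMap.fst ℝ ℝ ℝ +
        (exp α * sin (2 * π * x) / 2) • ContinuousLinearMap.snd ℝ ℝ ℝ) (x, α) := by
    refine ((hE.sub_const 1).mul (hS.mul hC)).congr_fderiv ?_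
    have e2 : 2 * π * x = 2 * (π * x) := by ring
    rw [e2, cos_two_mul', sin_two_mul]
    ext <;> simp <;> ring
  have hD : HasFDerivAt (fun p : ℝ × ℝ => (dd p.1 p.2)⁻¹)
      (fderiv ℝ (fun p : ℝ × ℝ => (dd p.1 p.2)⁻¹) (x, α)) (x, α) := by
    apply DifferentiableAt.hasFDerivAt
    apply DifferentiableAt.inv
    · unfold dd
      fun_prop
    · exact hd.ne'
  have hQ := (hN.mul hD).arctan
  refine ((hasFDerivAt_fst (𝕜 := ℝ) (E := ℝ) (F := ℝ) (p := (x, α))).add
    (hQ.const_mul (1 / π))).congr_fderiv ?_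
  simp only [h, zero_mul, Pi.mul_apply, zero_smul, zero_add, ne_eq, OfNat.ofNat_ne_zero,
    not_false_eq_true, zero_pow, add_zero, div_one, one_smul]
  ext <;> simp <;> field_simp

end

end Pool.Agent.N252.HC
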