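import Pool.Agent.TH292.MR.Defs

/-!
# The sum of the positive Lyapunov exponents for diffeomorphisms of the two-torus
-/

set_option autoImplicit false

open Filter Topology
open Pool.Agent.TH292.MR

namespace Pool.Agent.N252.HC

/-- The norm of the map `Λ A` induced by a linear map `A` of the plane on the exterior algebra
`Λ ℝ² = ℝ ⊕ ℝ² ⊕ ℝ`, that is, of `1 ⊕ A ⊕ det A`. -/
noncomputable def extNorm (A : Plane →L[ℝ] Plane) : ℝ := max 1 (max ‖A‖ |A.det|)

/-- `c` is the value `χ₊(x)` of the sum of the positive Lyapunov exponents (with multiplicity) at the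
point `x` of the torus, for the diffeomorphism with lift `F`:
`(1/n) log ‖Λ T_x fⁿ‖` tends to `c`. -/
def IsChiPlus (F : Plane → Plane) (x : Torus) (c : ℝ) : Prop :=
  ∀ z : Plane, proj z = x →
    Tendsto (fun n : ℕ => 1 / (n : ℝ) * Real.log (extNorm (fderiv ℝ (F^[n]) z))) atTop (𝓝 c)

end Pool.Agent.N252.HC
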