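import Pool.Agent.N252.HC.Meas
import Pool.Agent.N252.HC.Defs

/-!
# The exponents at the fixed points
-/

set_option autoImplicit false

open Real Set Filter Topology MeasureTheory
open scoped ContDiff
open Pool.Agent.TH292.MR

namespace Pool.Agent.N252.HC

noncomputable section

/-- first partial derivative of `XX` where `nn` vanishes -/
def pa (x α : ℝ) : ℝ := 1 + (exp α - 1) * cos (2 * π * x) / dd x α

/-- second partial derivative of `XX` where `nn` vanishes -/
def pb (x α : ℝ) : ℝ := exp α * sin (2 * π * x) / (2 * π * dd x α)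

/-- a linear map of the plane from its matrix -/
def lin (a b c d : ℝ) : Plane →L[ℝ] Plane :=
  (a • ContinuousLinearMap.fst ℝ ℝ ℝ + b • ContinuousLinearMap.snd ℝ ℝ ℝ).prod
    (c • ContinuousLinearMap.fst ℝ ℝ ℝ + d • ContinuousLinearMap.snd ℝ ℝ ℝ)

lemma lin_apply (a b c d : ℝ) (w : Plane) :
    lin a b c d w = (a * w.1 + b * w.2, c * w.1 + d * w.2) := by
  simp [lin]

lemma hasFDerivAt_F1 {z : Plane} (h : nn z.1 (om * cos (2 * π * z.2)) = 0) :
    HasFDerivAt F1 (lin (pa z.1 (om * cos (2 * π * z.2)))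
      (pb z.1 (om * cos (2 * π * z.2)) * (-(2 * π * om * sin (2 * π * z.2)))) 0 1) z := by
  have h1 := hasFDerivAt_XX h
  have h2 : HasFDerivAt (fun w : Plane => ((w.1, om * cos (2 * π * w.2)) : ℝ × ℝ))
      ((ContinuousLinearMap.fst ℝ ℝ ℝ).prod
        ((-(2 * π * om * sin (2 * π * z.2))) • ContinuousLinearMap.snd ℝ ℝ ℝ)) z := by
    apply HasFDerivAt.prodMk hasFDerivAt_fst
    refine ((((hasFDerivAt_snd (𝕜 := ℝ) (E := ℝ) (F := ℝ) (p := z)).const_mul (2 * π))).cos.const_mul
      om).congr_fderiv ?_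
    ext <;> simp
    ring
  have h3 := h1.comp z h2
  refine (h3.prodMk (hasFDerivAt_snd (p := z))).congr_fderiv ?_
  unfold pa pb
  ext <;> simp [lin]

lemma hasFDerivAt_F2 {z : Plane} (h : nn z.2 (-(om * cos (2 * π * z.1))) = 0) :
    HasFDerivAt F2 (lin 1 0 (pb z.2 (-(om * cos (2 * π * z.1))) * (2 * π * om * sin (2 * π * z.1)))
      (pa z.2 (-(om * cos (2 * π * z.1))))) z := by
  have h1 := hasFDerivAt_XX h
  have h2 : HasFDerivAt (fun w : Plane => ((w.2, -(om * cos (2 * π * w.1))) : ℝ × ℝ))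
      ((ContinuousLinearMap.snd ℝ ℝ ℝ).prod
        ((2 * π * om * sin (2 * π * z.1)) • ContinuousLinearMap.fst ℝ ℝ ℝ)) z := by
    apply HasFDerivAt.prodMk hasFDerivAt_snd
    refine ((((hasFDerivAt_fst (𝕜 := ℝ) (E := ℝ) (F := ℝ) (p := z)).const_mul (2 * π))).cos.const_mul
      om).neg.congr_fderiv ?_
    ext <;> simp
    ring
  have h3 := h1.comp z h2
  refine ((hasFDerivAt_fst (p := z)).prodMk h3).congr_fderiv ?_
  unfold pa pb
  ext <;> simp [lin]

lemma hasDerivAt_YY {x κ : ℝ} (h : nn (2 * x) κ = 0) : HasDerivAt (YY κ) (pa (2 * x) κ) x := by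
  have h1 := hasFDerivAt_XX h
  have h2 : HasDerivAt (fun w : ℝ => ((2 * w, κ) : ℝ × ℝ)) (2, 0) x := by
    apply HasDerivAt.prodMk
    · simpa using (hasDerivAt_id x).const_mul 2
    · exact hasDerivAt_const _ _
  have h3 := (h1.comp_hasDerivAt x h2).div_const 2
  refine h3.congr_deriv ?_
  unfold pa
  simp

lemma hasFDerivAt_F3 {z : Plane} (h1 : nn (2 * z.1) (-ka) = 0) (h2 : nn (2 * z.2) (-ka) = 0) :
    HasFDerivAt F3 (lin (pa (2 * z.1) (-ka)) 0 0 (pa (2 * z.2) (-ka))) z := by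
  have e1 := (hasDerivAt_YY h1).comp_hasFDerivAt z
    (hasFDerivAt_fst (𝕜 := ℝ) (E := ℝ) (F := ℝ) (p := z))
  have e2 := (hasDerivAt_YY h2).comp_hasFDerivAt z
    (hasFDerivAt_snd (𝕜 := ℝ) (E := ℝ) (F := ℝ) (p := z))
  refine (e1.prodMk e2).congr_fderiv ?_
  ext <;> simp [lin]

lemma lin_comp (a b c d a' b' c' d' : ℝ) : (lin a b c d).comp (lin a' b' c' d') =
    lin (a * a' + b * c') (a * b' + b * d') (c * a' + d * c') (c * b' + d * d') := by
  ext <;> simp [lin_apply]

lemma F1_fix {z : Plane} (h : IsFix z) : F1 z = z ∧ nn z.1 (om * cos (2 * π * z.2)) = 0 := by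
  have e : nn z.1 (om * cos (2 * π * z.2)) = 0 := by
    rw [nn_eq]
    rcases h with h | h
    · rw [h.1]; ring
    · rw [h.2]; simp
  refine ⟨?_, e⟩
  unfold F1
  rw [XX_of_nn e]

lemma F2_fix {z : Plane} (h : IsFix z) : F2 z = z ∧ nn z.2 (-(om * cos (2 * π * z.1))) = 0 := by
  have e : nn z.2 (-(om * cos (2 * π * z.1))) = 0 := by
    rw [nn_eq]
    rcases h with h | h
    · rw [h.2]; ring
    · rw [h.1]; simp
  refine ⟨?_, e⟩
  unfold F2
  rw [XX_of_nn e]

lemma hasFDerivAt_FF {z : Plane} (h : IsFix z) : HasFDerivAt FF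
    ((lin (pa (2 * z.1) (-ka)) 0 0 (pa (2 * z.2) (-ka))).comp
      ((lin 1 0 (pb z.2 (-(om * cos (2 * π * z.1))) * (2 * π * om * sin (2 * π * z.1)))
      (pa z.2 (-(om * cos (2 * π * z.1))))).comp
      (lin (pa z.1 (om * cos (2 * π * z.2)))
      (pb z.1 (om * cos (2 * π * z.2)) * (-(2 * π * om * sin (2 * π * z.2)))) 0 1))) z := by
  obtain ⟨f1, n1⟩ := F1_fix h
  obtain ⟨f2, n2⟩ := F2_fix h
  have d1 := hasFDerivAt_F1 n1
  have d2 := hasFDerivAt_F2 n2
  have n3 : nn (2 * z.1) (-ka) = 0 ∧ nn (2 * z.2) (-ka) = 0 := by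
    rcases h with h | h
    · exact ⟨nn_two_mul _ (Or.inl h.1), nn_two_mul _ (Or.inl h.2)⟩
    · exact ⟨nn_two_mul _ (Or.inr h.1), nn_two_mul _ (Or.inr h.2)⟩
  have d3 := hasFDerivAt_F3 n3.1 n3.2
  have d2' : HasFDerivAt F2 (lin 1 0 (pb z.2 (-(om * cos (2 * π * z.1))) *
      (2 * π * om * sin (2 * π * z.1))) (pa z.2 (-(om * cos (2 * π * z.1))))) (F1 z) := by
    rw [f1]; exact d2
  have d12 := d2'.comp z d1
  have d3' : HasFDerivAt F3 (lin (pa (2 * z.1) (-ka)) 0 0 (pa (2 * z.2) (-ka)))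
      ((F2 ∘ F1) z) := by
    rw [Function.comp, f1, f2]; exact d3
  exact d3'.comp z d12

lemma pa_corner {x α : ℝ} (h : sin (2 * π * x) = 0) : pa x α = exp (cos (2 * π * x) * α) := by
  have hs1 := sin_sq_add_cos_sq (2 * π * x)
  have hc2 : cos (2 * π * x) ^ 2 = 1 := by rw [h] at hs1; linarith
  have hE := exp_pos α
  have e : cos (2 * π * x) = 2 * cos (π * x) ^ 2 - 1 := by
    rw [show 2 * π * x = 2 * (π * x) by ring, cos_two_mul]
  have hs2 := sin_sq_add_cos_sq (π * x)
  unfold pa dd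
  rcases sq_eq_one_iff_of_side' hc2 with h | h
  · have h1 : cos (π * x) ^ 2 = 1 := by rw [h] at e; linarith
    have h2 : sin (π * x) ^ 2 = 0 := by linarith
    rw [h, h1, h2]; simp
  · have h1 : cos (π * x) ^ 2 = 0 := by rw [h] at e; linarith
    have h2 : sin (π * x) ^ 2 = 1 := by linarith
    rw [h, h1, h2, neg_one_mul, exp_neg]
    field_simp
    ring

lemma pa_zero (x : ℝ) : pa x 0 = 1 := by simp [pa]

lemma pb_corner {x α : ℝ} (h : sin (2 * π * x) = 0) : pb x α = 0 := by
  unfold pb; rw [h]; simp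

lemma pb_zero (x : ℝ) : pb x 0 = sin (2 * π * x) / (2 * π) := by
  unfold pb dd
  rw [exp_zero, one_mul, one_mul, cos_sq_add_sin_sq, mul_one]

lemma pa_two_corner {x α : ℝ} (h : sin (2 * π * x) = 0) : pa (2 * x) α = exp α := by
  have e : 2 * π * (2 * x) = 2 * (2 * π * x) := by ring
  have h1 : sin (2 * π * (2 * x)) = 0 := by rw [e, sin_two_mul, h]; ring
  rw [pa_corner h1, e, cos_two_mul', h]
  have hs1 := sin_sq_add_cos_sq (2 * π * x)
  have hc2 : cos (2 * π * x) ^ 2 = 1 := by rw [h] at hs1; linarith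
  rw [hc2]; simp

lemma pa_two_center {x α : ℝ} (h : cos (2 * π * x) = 0) : pa (2 * x) α = exp (-α) := by
  have e : 2 * π * (2 * x) = 2 * (2 * π * x) := by ring
  have h1 : sin (2 * π * (2 * x)) = 0 := by rw [e, sin_two_mul, h]; ring
  rw [pa_corner h1, e, cos_two_mul', h]
  have hs1 := sin_sq_add_cos_sq (2 * π * x)
  have hc2 : sin (2 * π * x) ^ 2 = 1 := by rw [h] at hs1; linarith
  rw [hc2]; simp

/-- the derivative at the saddles -/
lemma deriv_saddle {z : Plane} (h1 : sin (2 * π * z.1) = 0) (h2 : sin (2 * π * z.2) = 0) :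
    ∃ s : ℝ, (s = 1 ∨ s = -1) ∧
      HasFDerivAt FF (lin (exp (om * s - ka)) 0 0 (exp (-(om * s) - ka))) z := by
  have hs1 := sin_sq_add_cos_sq (2 * π * z.1)
  have hc1 : cos (2 * π * z.1) ^ 2 = 1 := by rw [h1] at hs1; linarith
  have hs2 := sin_sq_add_cos_sq (2 * π * z.2)
  have hc2 : cos (2 * π * z.2) ^ 2 = 1 := by rw [h2] at hs2; linarith
  refine ⟨cos (2 * π * z.1) * cos (2 * π * z.2), ?_, ?_⟩
  · apply sq_eq_one_iff_of_side'
    rw [mul_pow, hc1, hc2, one_mul]
  · have h := hasFDerivAt_FF (z := z) (Or.inl ⟨h1, h2⟩)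
    rw [pa_two_corner h1, pa_two_corner h2, pa_corner h1, pa_corner h2, pb_corner h1, pb_corner h2,
      lin_comp, lin_comp] at h
    refine h.congr_fderiv ?_
    have e1 : exp (-ka) * (1 * exp (cos (2 * π * z.1) * (om * cos (2 * π * z.2))) + 0 * 0) +
        0 * (0 * (2 * π * om * sin (2 * π * z.1)) *
          exp (cos (2 * π * z.1) * (om * cos (2 * π * z.2))) +
          exp (cos (2 * π * z.2) * -(om * cos (2 * π * z.1))) * 0) =
        exp (om * (cos (2 * π * z.1) * cos (2 * π * z.2)) - ka) := by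
      rw [sub_eq_add_neg, exp_add]
      have : om * (cos (2 * π * z.1) * cos (2 * π * z.2)) =
        cos (2 * π * z.1) * (om * cos (2 * π * z.2)) := by ring
      rw [this]; ring
    have e2 : exp (-ka) * exp (cos (2 * π * z.2) * -(om * cos (2 * π * z.1))) =
        exp (-(om * (cos (2 * π * z.1) * cos (2 * π * z.2))) - ka) := by
      rw [sub_eq_add_neg, exp_add]
      have : -(om * (cos (2 * π * z.1) * cos (2 * π * z.2))) =
        cos (2 * π * z.2) * -(om * cos (2 * π * z.1)) := by ring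
      rw [this]; ring
    rw [e1, ← e2]
    congr 1 <;> ring

/-- the derivative at the sources -/
lemma deriv_source {z : Plane} (h1 : cos (2 * π * z.1) = 0) (h2 : cos (2 * π * z.2) = 0) :
    ∃ t : ℝ, (t = om ∨ t = -om) ∧
      HasFDerivAt FF (lin (exp ka) (-(exp ka * t)) (exp ka * t) (exp ka * (1 - t ^ 2))) z := by
  have hs1 := sin_sq_add_cos_sq (2 * π * z.1)
  have hc1 : sin (2 * π * z.1) ^ 2 = 1 := by rw [h1] at hs1; linarith
  have hs2 := sin_sq_add_cos_sq (2 * π * z.2)
  have hc2 : sin (2 * π * z.2) ^ 2 = 1 := by rw [h2] at hs2; linarith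
  refine ⟨om * (sin (2 * π * z.1) * sin (2 * π * z.2)), ?_, ?_⟩
  · have : (sin (2 * π * z.1) * sin (2 * π * z.2)) ^ 2 = 1 := by rw [mul_pow, hc1, hc2, one_mul]
    rcases sq_eq_one_iff_of_side' this with h | h
    · left; rw [h, mul_one]
    · right; rw [h]; ring
  · have h := hasFDerivAt_FF (z := z) (Or.inr ⟨h1, h2⟩)
    rw [pa_two_center h1, pa_two_center h2, h1, h2, mul_zero, neg_zero, pa_zero, pa_zero, pb_zero,
      pb_zero, lin_comp, lin_comp, neg_neg] at h
    refine h.congr_fderiv ?_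
    have hp := pi_pos
    congr 1
    · ring
    · field_simp
      ring
    · field_simp
      ring
    · field_simp
      ring

/-! ### Norms of the powers -/

lemma det_lin (a b c d : ℝ) : (lin a b c d).det = a * d - b * c := by
  have h : LinearMap.toMatrix (Module.Basis.finTwoProd ℝ) (Module.Basis.finTwoProd ℝ)
      ((lin a b c d : Plane →L[ℝ] Plane) : Plane →ₗ[ℝ] Plane) = !![a, b; c, d] := by
    ext i j
    rw [LinearMap.toMatrix_apply]
    fin_cases i <;> fin_cases j <;> simp [lin_apply]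
  unfold ContinuousLinearMap.det
  rw [← LinearMap.det_toMatrix (Module.Basis.finTwoProd ℝ), h, Matrix.det_fin_two_of]

lemma det_pow (A : Plane →L[ℝ] Plane) (n : ℕ) : (A ^ n).det = A.det ^ n := by
  induction n with
  | zero => simp [ContinuousLinearMap.det]
  | succ n ih =>
    rw [pow_succ, pow_succ, ← ih]
    unfold ContinuousLinearMap.det
    rw [← LinearMap.det_comp]
    rfl

lemma tendsto_of_bounds {a : ℕ → ℝ} {χ C : ℝ} (hC : 0 < C) (h1 : ∀ n : ℕ, exp (n * χ) ≤ a n)
    (h2 : ∀ n : ℕ, a n ≤ C * exp (n * χ)) :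
    Tendsto (fun n : ℕ => 1 / (n : ℝ) * Real.log (a n)) atTop (𝓝 χ) := by
  have hpos : ∀ n, 0 < a n := fun n => (exp_pos _).trans_le (h1 n)
  have hup : Tendsto (fun n : ℕ => Real.log C / (n : ℝ) + χ) atTop (𝓝 (0 + χ)) :=
    (tendsto_const_div_atTop_nhds_zero_nat _).add_const χ
  rw [zero_add] at hup
  apply tendsto_of_tendsto_of_tendsto_of_le_of_le' tendsto_const_nhds hup
  · filter_upwards [eventually_gt_atTop 0] with n hn
    have hn' : (0 : ℝ) < n := by exact_mod_cast hn
    have : n * χ ≤ Real.log (a n) := by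
      rw [Real.le_log_iff_exp_le (hpos n)]; exact h1 n
    rw [one_div, inv_mul_eq_div, le_div_iff₀ hn']
    linarith
  · filter_upwards [eventually_gt_atTop 0] with n hn
    have hn' : (0 : ℝ) < n := by exact_mod_cast hn
    have : Real.log (a n) ≤ Real.log C + n * χ := by
      calc Real.log (a n) ≤ Real.log (C * exp (n * χ)) := Real.log_le_log (hpos n) (h2 n)
        _ = _ := by rw [Real.log_mul hC.ne' (exp_pos _).ne', Real.log_exp]
    rw [one_div, inv_mul_eq_div, div_le_iff₀ hn', add_mul, div_mul_cancel₀ _ hn'.ne']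
    linarith

lemma lin_diag_pow (p q : ℝ) (n : ℕ) : (lin p 0 0 q) ^ n = lin (p ^ n) 0 0 (q ^ n) := by
  induction n with
  | zero => ext <;> simp [lin_apply]
  | succ n ih =>
    rw [pow_succ, ih]
    change (lin (p ^ n) 0 0 (q ^ n)).comp (lin p 0 0 q) = _
    rw [lin_comp]
    congr 1 <;> ring

lemma norm_lin_diag_le {p q r : ℝ} (hp : |p| ≤ r) (hq : |q| ≤ r) : ‖lin p 0 0 q‖ ≤ r := by
  have hr : 0 ≤ r := (abs_nonneg p).trans hp
  apply ContinuousLinearMap.opNorm_le_bound _ hr
  intro w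
  rw [lin_apply]
  simp only [zero_mul, add_zero, zero_add]
  rw [Prod.norm_def]
  apply max_le
  · rw [norm_mul]
    exact mul_le_mul hp (norm_fst_le w) (norm_nonneg _) hr
  · rw [norm_mul]
    exact mul_le_mul hq (norm_snd_le w) (norm_nonneg _) hr

lemma extNorm_saddle {s : ℝ} (hs : s = 1 ∨ s = -1) (n : ℕ) :
    exp (n * (om - ka)) ≤ extNorm ((lin (exp (om * s - ka)) 0 0 (exp (-(om * s) - ka))) ^ n) ∧
    extNorm ((lin (exp (om * s - ka)) 0 0 (exp (-(om * s) - ka))) ^ n) ≤
      1 * exp (n * (om - ka)) := by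
  have hok : 0 < om - ka := by unfold om ka; norm_num
  have hk : 0 < ka := by unfold ka; norm_num
  have ho : 0 < om := by unfold om; norm_num
  have hn : (0 : ℝ) ≤ n := Nat.cast_nonneg n
  rw [lin_diag_pow, one_mul]
  have e1 : exp (om * s - ka) ^ n = exp (n * (om * s - ka)) := by rw [← exp_nat_mul]
  have e2 : exp (-(om * s) - ka) ^ n = exp (n * (-(om * s) - ka)) := by rw [← exp_nat_mul]
  rw [e1, e2]
  constructor
  · have key : exp (n * (om - ka)) ≤ ‖lin (exp (n * (om * s - ka))) 0 0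
        (exp (n * (-(om * s) - ka)))‖ := by
      rcases hs with rfl | rfl
      · have := (lin (exp (n * (om * 1 - ka))) 0 0 (exp (n * (-(om * 1) - ka)))).le_opNorm (1, 0)
        rw [lin_apply, Prod.norm_def, Prod.norm_def] at this
        simpa using this
      · have := (lin (exp (n * (om * -1 - ka))) 0 0 (exp (n * (-(om * -1) - ka)))).le_opNorm (0, 1)
        rw [lin_apply, Prod.norm_def, Prod.norm_def] at this
        simpa using this
    exact key.trans ((le_max_left _ _).trans (le_max_right _ _))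
  · apply max_le
    · rw [← exp_zero]
      exact exp_le_exp.2 (by positivity)
    apply max_le
    · apply norm_lin_diag_le
      · rw [abs_of_pos (exp_pos _)]
        apply exp_le_exp.2
        apply mul_le_mul_of_nonneg_left _ hn
        rcases hs with rfl | rfl <;> linarith
      · rw [abs_of_pos (exp_pos _)]
        apply exp_le_exp.2
        apply mul_le_mul_of_nonneg_left _ hn
        rcases hs with rfl | rfl <;> linarith
    · rw [det_lin, mul_zero, sub_zero, ← exp_add, abs_of_pos (exp_pos _)]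
      apply exp_le_exp.2
      have : n * (om * s - ka) + n * (-(om * s) - ka) = n * (-2 * ka) := by ring
      rw [this]
      apply mul_le_mul_of_nonneg_left _ hn
      linarith

/-- the quadratic form preserved by the rotation part -/
def QQ (t : ℝ) (w : Plane) : ℝ := w.1 ^ 2 - t * w.1 * w.2 + w.2 ^ 2

lemma QQ_lin (t : ℝ) (w : Plane) :
    QQ t (lin (exp ka) (-(exp ka * t)) (exp ka * t) (exp ka * (1 - t ^ 2)) w) =
      exp ka ^ 2 * QQ t w := by
  rw [lin_apply]
  unfold QQ
  simp only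
  ring

lemma norm_sq_le (t : ℝ) (ht : |t| ≤ 1) (w : Plane) : ‖w‖ ^ 2 ≤ 2 * QQ t w := by
  have ht' := abs_le.1 ht
  unfold QQ
  rw [Prod.norm_def]
  rcases le_total ‖w.1‖ ‖w.2‖ with h | h
  · rw [max_eq_right h, Real.norm_eq_abs, sq_abs]
    nlinarith [sq_nonneg (w.1 - w.2), sq_nonneg (w.1 + w.2), sq_nonneg w.1, sq_nonneg w.2]
  · rw [max_eq_left h, Real.norm_eq_abs, sq_abs]
    nlinarith [sq_nonneg (w.1 - w.2), sq_nonneg (w.1 + w.2), sq_nonneg w.1, sq_nonneg w.2]

lemma QQ_le (t : ℝ) (ht : |t| ≤ 1) (w : Plane) : QQ t w ≤ 3 * ‖w‖ ^ 2 := by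
  have ht' := abs_le.1 ht
  have h1 : |w.1| ≤ ‖w‖ := norm_fst_le w
  have h2 : |w.2| ≤ ‖w‖ := norm_snd_le w
  have h3 : w.1 ^ 2 ≤ ‖w‖ ^ 2 := by rw [← sq_abs]; gcongr
  have h4 : w.2 ^ 2 ≤ ‖w‖ ^ 2 := by rw [← sq_abs]; gcongr
  unfold QQ
  nlinarith [sq_nonneg (w.1 - w.2), sq_nonneg (w.1 + w.2)]

lemma extNorm_source {t : ℝ} (ht : t = om ∨ t = -om) (n : ℕ) :
    exp (n * (2 * ka)) ≤ extNorm ((lin (exp ka) (-(exp ka * t)) (exp ka * t)
      (exp ka * (1 - t ^ 2))) ^ n) ∧
    extNorm ((lin (exp ka) (-(exp ka * t)) (exp ka * t) (exp ka * (1 - t ^ 2))) ^ n) ≤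
      3 * exp (n * (2 * ka)) := by
  have hk : 0 < ka := by unfold ka; norm_num
  have hn : (0 : ℝ) ≤ n := Nat.cast_nonneg n
  have ht1 : |t| ≤ 1 := by
    rcases ht with rfl | rfl
    · unfold om; rw [abs_of_pos (by norm_num)]; norm_num
    · unfold om; rw [abs_neg, abs_of_pos (by norm_num)]; norm_num
  have hdet : ((lin (exp ka) (-(exp ka * t)) (exp ka * t) (exp ka * (1 - t ^ 2))) ^ n).det =
      exp (n * (2 * ka)) := by
    rw [det_pow, det_lin]
    have : exp ka * (exp ka * (1 - t ^ 2)) - -(exp ka * t) * (exp ka * t) = exp (2 * ka) := by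
      rw [two_mul, exp_add]; ring
    rw [this, ← exp_nat_mul]
  have h1 : (1 : ℝ) ≤ exp (n * (2 * ka)) := by
    rw [← exp_zero]; exact exp_le_exp.2 (by positivity)
  constructor
  · unfold extNorm
    rw [hdet, abs_of_pos (exp_pos _)]
    exact (le_max_right _ _).trans (le_max_right _ _)
  · unfold extNorm
    rw [hdet, abs_of_pos (exp_pos _)]
    apply max_le
    · linarith
    apply max_le
    · have hQ : ∀ w, QQ t (((lin (exp ka) (-(exp ka * t)) (exp ka * t)
          (exp ka * (1 - t ^ 2))) ^ n) w) = exp (n * ka) ^ 2 * QQ t w := by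
        intro w
        induction n with
        | zero => simp
        | succ m ih =>
          rw [pow_succ']
          change QQ t ((lin (exp ka) (-(exp ka * t)) (exp ka * t) (exp ka * (1 - t ^ 2)))
            (((lin (exp ka) (-(exp ka * t)) (exp ka * t) (exp ka * (1 - t ^ 2))) ^ m) w)) = _
          rw [QQ_lin]
          have : QQ t (((lin (exp ka) (-(exp ka * t)) (exp ka * t)
            (exp ka * (1 - t ^ 2))) ^ m) w) = exp (m * ka) ^ 2 * QQ t w := by
            apply ih (Nat.cast_nonneg m)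
            · rw [det_pow, det_lin]
              have : exp ka * (exp ka * (1 - t ^ 2)) - -(exp ka * t) * (exp ka * t) =
                exp (2 * ka) := by
                rw [two_mul, exp_add]; ring
              rw [this, ← exp_nat_mul]
            · rw [← exp_zero]; exact exp_le_exp.2 (by positivity)
          rw [this]
          push_cast
          rw [add_mul, one_mul, exp_add]
          ring
      apply ContinuousLinearMap.opNorm_le_bound _ (by positivity)
      intro w
      have h5 := norm_sq_le t ht1 (((lin (exp ka) (-(exp ka * t)) (exp ka * t)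
          (exp ka * (1 - t ^ 2))) ^ n) w)
      rw [hQ w] at h5
      have h6 := QQ_le t ht1 w
      have h7 : exp (n * ka) ^ 2 ≤ exp (n * (2 * ka)) ^ 2 := by
        have : exp (n * ka) ≤ exp (n * (2 * ka)) := by
          apply exp_le_exp.2
          apply mul_le_mul_of_nonneg_left _ hn
          linarith
        gcongr
      have h8 : ‖((lin (exp ka) (-(exp ka * t)) (exp ka * t) (exp ka * (1 - t ^ 2))) ^ n) w‖ ^ 2 ≤
          (3 * exp (n * (2 * ka)) * ‖w‖) ^ 2 := by
        calc _ ≤ 2 * (exp (n * ka) ^ 2 * QQ t w) := h5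
          _ ≤ 2 * (exp (n * ka) ^ 2 * (3 * ‖w‖ ^ 2)) := by gcongr
          _ ≤ 2 * (exp (n * (2 * ka)) ^ 2 * (3 * ‖w‖ ^ 2)) := by gcongr
          _ ≤ _ := by
            have : 0 ≤ exp (n * (2 * ka)) ^ 2 * ‖w‖ ^ 2 := by positivity
            nlinarith
      exact le_of_sq_le_sq h8 (by positivity)
    · linarith

end

end Pool.Agent.N252.HC
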