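import Pool.Agent.N252.HC.Maps

/-!
# The Lyapunov function
-/

set_option autoImplicit false

open Real Set Filter Topology
open scoped ContDiff
open Pool.Agent.TH292.MR

namespace Pool.Agent.N252.HC

noncomputable section

/-- the square of the product of the sines -/
def HH (z : Plane) : ℝ := sin (2 * π * z.1) ^ 2 * sin (2 * π * z.2) ^ 2

lemma abs_sinh_le {α : ℝ} (h : |α| ≤ 1) : |sinh α| ≤ |α| + α ^ 2 := by
  have h1 := Real.abs_exp_sub_one_sub_id_le h
  have h2 := Real.abs_exp_sub_one_sub_id_le (x := -α) (by rwa [abs_neg])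
  rw [abs_le] at h1 h2 ⊢
  rw [sinh_eq]
  have h3 := neg_abs_le α
  have h4 := le_abs_self α
  constructor <;> nlinarith [h1.1, h1.2, h2.1, h2.2]

/-- the image of the cosine -/
def c1 (c α : ℝ) : ℝ := (c * cosh α - sinh α) / (cosh α - c * sinh α)

lemma sub_c1 {c α : ℝ} (hc : |c| ≤ 1) (hα : |α| ≤ 1 / 20) : |c - c1 c α| ≤ 2 * |α| := by
  have hc' := abs_le.1 hc
  have hden := den_pos c α hc'.1 hc'.2
  have h0 : c - c1 c α = sinh α * (1 - c ^ 2) / (cosh α - c * sinh α) := by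
    unfold c1
    field_simp
    ring
  have hs := abs_sinh_le (α := α) (by linarith)
  have hs2 : |sinh α| ≤ 21 / 20 * |α| := by
    have : α ^ 2 ≤ 1 / 20 * |α| := by
      rw [← sq_abs]
      nlinarith [abs_nonneg α]
    linarith
  have hch := one_le_cosh α
  have hd2 : 9 / 10 ≤ cosh α - c * sinh α := by
    have : |c * sinh α| ≤ 21 / 20 * |α| := by
      rw [abs_mul]
      nlinarith [abs_nonneg c, abs_nonneg (sinh α)]
    have := (abs_le.1 this).2
    linarith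
  rw [h0, abs_div, abs_of_pos hden, div_le_iff₀ hden, abs_mul]
  have h5 : |1 - c ^ 2| ≤ 1 := by
    rw [abs_le]
    constructor <;> nlinarith [sq_nonneg c, (sq_le_one_iff_abs_le_one c).2 hc]
  have h6 : |sinh α| * |1 - c ^ 2| ≤ 21 / 20 * |α| := by
    calc |sinh α| * |1 - c ^ 2| ≤ |sinh α| * 1 := by gcongr
      _ ≤ _ := by linarith
  nlinarith [abs_nonneg α]

lemma exp_le_den (c α : ℝ) (hc1 : -1 ≤ c) (hc2 : c ≤ 1) :
    exp (-(c * α)) ≤ cosh α - c * sinh α := by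
  have h := convexOn_exp.2 (mem_univ α) (mem_univ (-α)) (by linarith : 0 ≤ (1 - c) / 2)
    (by linarith : 0 ≤ (1 + c) / 2) (by ring)
  simp only [smul_eq_mul] at h
  have e1 : (1 - c) / 2 * α + (1 + c) / 2 * -α = -(c * α) := by ring
  rw [e1] at h
  rw [cosh_eq, sinh_eq]
  linarith

lemma sin_sq_le (x α : ℝ) :
    sin (2 * π * XX x α) ^ 2 ≤ sin (2 * π * x) ^ 2 * exp (2 * (cos (2 * π * x) * α)) := by
  have hc1 := neg_one_le_cos (2 * π * x)
  have hc2 := cos_le_one (2 * π * x)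
  have h := exp_le_den (cos (2 * π * x)) α hc1 hc2
  have hden := den_pos (cos (2 * π * x)) α hc1 hc2
  rw [sin_two_pi_XX, div_pow, div_le_iff₀ (by positivity)]
  have h2 : exp (2 * (cos (2 * π * x) * α)) * (cosh α - cos (2 * π * x) * sinh α) ^ 2 ≥ 1 := by
    have e : exp (2 * (cos (2 * π * x) * α)) * exp (-(cos (2 * π * x) * α)) ^ 2 = 1 := by
      rw [← exp_nat_mul, ← exp_add]
      simp
    rw [← e]
    gcongr
  have := sq_nonneg (sin (2 * π * x))
  nlinarith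

lemma cos_YY (κ x : ℝ) : cos (2 * π * YY κ x) = cos (2 * π * x) /
    √(cos (2 * π * x) ^ 2 + exp κ ^ 2 * sin (2 * π * x) ^ 2) := by
  unfold YY
  rw [show 2 * π * (XX (2 * x) κ / 2) = π * XX (2 * x) κ by ring, cos_pi_XX]
  unfold qq
  rw [show π * (2 * x) = 2 * π * x by ring]

lemma sin_YY (κ x : ℝ) : sin (2 * π * YY κ x) = exp κ * sin (2 * π * x) /
    √(cos (2 * π * x) ^ 2 + exp κ ^ 2 * sin (2 * π * x) ^ 2) := by
  unfold YY
  rw [show 2 * π * (XX (2 * x) κ / 2) = π * XX (2 * x) κ by ring, sin_pi_XX]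
  unfold qq
  rw [show π * (2 * x) = 2 * π * x by ring]

/-- the expansion constant -/
def MM : ℝ := exp (2 * ka) - 1

lemma MM_ge : 1 / 20 ≤ MM := by
  unfold MM ka
  have := add_one_le_exp (2 * (1 / 40 : ℝ))
  linarith

lemma sin_YY_sq (x : ℝ) : sin (2 * π * YY (-ka) x) ^ 2 =
    sin (2 * π * x) ^ 2 / (1 + MM * cos (2 * π * x) ^ 2) := by
  have h1 := sin_sq_add_cos_sq (2 * π * x)
  have hM := MM_ge
  have hE := exp_pos (-ka)
  have hpos : 0 < 1 + MM * cos (2 * π * x) ^ 2 := by positivity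
  have e1 : exp (-ka) ^ 2 * exp (2 * ka) = 1 := by
    rw [← exp_nat_mul, ← exp_add]; simp
  have e2 : cos (2 * π * x) ^ 2 + exp (-ka) ^ 2 * sin (2 * π * x) ^ 2 =
      exp (-ka) ^ 2 * (1 + MM * cos (2 * π * x) ^ 2) := by
    have : exp (-ka) ^ 2 * (1 + MM * cos (2 * π * x) ^ 2) =
      exp (-ka) ^ 2 * (1 - cos (2 * π * x) ^ 2) +
        (exp (-ka) ^ 2 * exp (2 * ka)) * cos (2 * π * x) ^ 2 := by
      unfold MM; ring
    rw [this, e1]
    have : sin (2 * π * x) ^ 2 = 1 - cos (2 * π * x) ^ 2 := by linarith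
    rw [this]
    ring
  have hq : 0 ≤ cos (2 * π * x) ^ 2 + exp (-ka) ^ 2 * sin (2 * π * x) ^ 2 := by positivity
  rw [sin_YY, div_pow, Real.sq_sqrt hq, e2]
  field_simp

lemma abs_cos_le (x : ℝ) : |cos x| ≤ 1 := abs_cos_le_one x

lemma om_mul_le {d : ℝ} (hd : |d| ≤ 1) : |om * d| ≤ 1 / 20 := by
  unfold om
  rw [abs_mul, abs_of_pos (by norm_num : (0 : ℝ) < 1 / 20)]
  linarith

lemma exp_bound {c d u v : ℝ} (hd1 : |d| ≤ 1) (hcu : |c - u| ≤ 2 * |om * d|)
    (hdv : |d - v| ≤ 2 * |om * u|) :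
    exp (2 * (c * (om * d)) + 2 * (d * (-(om * u)))) ≤ 1 + 1 / 25 * v ^ 2 + 1 / 2500 * u ^ 2 := by
  have h5 : 2 * (c * (om * d)) + 2 * (d * (-(om * u))) = 2 * om * (d * (c - u)) := by ring
  have e1 : |om * d| = 1 / 20 * |d| := by
    unfold om
    rw [abs_mul, abs_of_pos (by norm_num : (0 : ℝ) < 1 / 20)]
  have e1' : |om * u| = 1 / 20 * |u| := by
    unfold om
    rw [abs_mul, abs_of_pos (by norm_num : (0 : ℝ) < 1 / 20)]
  have h6 : 2 * om * (d * (c - u)) ≤ 1 / 100 * d ^ 2 := by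
    have e2 : d * (c - u) ≤ |d| * (2 * (1 / 20 * |d|)) := by
      calc d * (c - u) ≤ |d * (c - u)| := le_abs_self _
        _ = |d| * |c - u| := abs_mul _ _
        _ ≤ _ := by
          rw [← e1]
          gcongr
    have e3 : |d| * |d| = d ^ 2 := by rw [abs_mul_abs_self]; ring
    unfold om
    nlinarith
  have hdd : d ^ 2 ≤ 1 := by
    rw [← sq_abs]; nlinarith [abs_nonneg d]
  have h7 : exp (1 / 100 * d ^ 2) ≤ 1 + 1 / 50 * d ^ 2 := by
    have := Real.abs_exp_sub_one_le (x := 1 / 100 * d ^ 2) (by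
      rw [abs_of_nonneg (by positivity)]; linarith)
    rw [abs_of_nonneg (by positivity : 0 ≤ 1 / 100 * d ^ 2)] at this
    have := le_trans (le_abs_self _) this
    linarith
  have h8 : d ^ 2 ≤ 2 * v ^ 2 + 1 / 50 * u ^ 2 := by
    have e2 : (d - v) ^ 2 ≤ 1 / 100 * u ^ 2 := by
      rw [← sq_abs (d - v), ← sq_abs u]
      have : |d - v| ≤ 1 / 10 * |u| := by rw [e1'] at hdv; linarith
      nlinarith [abs_nonneg (d - v), abs_nonneg u]
    nlinarith [sq_nonneg (d - 2 * v)]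
  calc _ ≤ exp (1 / 100 * d ^ 2) := by
        rw [h5]
        exact exp_le_exp.2 h6
    _ ≤ 1 + 1 / 50 * d ^ 2 := h7
    _ ≤ _ := by linarith

lemma FF_eq (z : Plane) : FF z =
    (YY (-ka) (XX z.1 (om * cos (2 * π * z.2))),
      YY (-ka) (XX z.2 (-(om * cos (2 * π * XX z.1 (om * cos (2 * π * z.2))))))) := rfl

lemma HH_main (z : Plane) : ∃ u v : ℝ,
    HH (FF z) * ((1 + MM * u ^ 2) * (1 + MM * v ^ 2)) ≤
      HH z * (1 + 1 / 25 * v ^ 2 + 1 / 2500 * u ^ 2) ∧
    (u = 0 → v = 0 → cos (2 * π * z.1) = 0 ∧ cos (2 * π * z.2) = 0) := by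
  obtain ⟨x, y⟩ := z
  have hc1 : |cos (2 * π * x)| ≤ 1 := abs_cos_le_one _
  have hd1 : |cos (2 * π * y)| ≤ 1 := abs_cos_le_one _
  have hα' : |om * cos (2 * π * y)| ≤ 1 / 20 := om_mul_le hd1
  obtain ⟨x1, hx1⟩ : ∃ x1, x1 = XX x (om * cos (2 * π * y)) := ⟨_, rfl⟩
  have hu1 : |cos (2 * π * x1)| ≤ 1 := abs_cos_le_one _
  have huc : cos (2 * π * x1) = c1 (cos (2 * π * x)) (om * cos (2 * π * y)) := by
    rw [hx1, cos_two_pi_XX]; rfl
  have hβ' : |-(om * cos (2 * π * x1))| ≤ 1 / 20 := by rw [abs_neg]; exact om_mul_le hu1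
  obtain ⟨y1, hy1⟩ : ∃ y1, y1 = XX y (-(om * cos (2 * π * x1))) := ⟨_, rfl⟩
  have hvd : cos (2 * π * y1) = c1 (cos (2 * π * y)) (-(om * cos (2 * π * x1))) := by
    rw [hy1, cos_two_pi_XX]; rfl
  have hcu := sub_c1 hc1 hα'
  have hdv := sub_c1 hd1 hβ'
  rw [← huc] at hcu
  rw [← hvd, abs_neg] at hdv
  have hFF : FF (x, y) = (YY (-ka) x1, YY (-ka) y1) := by
    rw [FF_eq, ← hx1, ← hy1]
  have hM := MM_ge
  refine ⟨cos (2 * π * x1), cos (2 * π * y1), ?_, ?_⟩
  · have h1 : HH (FF (x, y)) * ((1 + MM * cos (2 * π * x1) ^ 2) * (1 + MM * cos (2 * π * y1) ^ 2)) =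
        sin (2 * π * x1) ^ 2 * sin (2 * π * y1) ^ 2 := by
      rw [hFF]
      unfold HH
      rw [sin_YY_sq, sin_YY_sq]
      have e1 : 0 < 1 + MM * cos (2 * π * x1) ^ 2 := by positivity
      have e2 : 0 < 1 + MM * cos (2 * π * y1) ^ 2 := by positivity
      field_simp
    rw [h1]
    have h2 := sin_sq_le x (om * cos (2 * π * y))
    have h3 := sin_sq_le y (-(om * cos (2 * π * x1)))
    rw [← hx1] at h2
    rw [← hy1] at h3
    have h7 := exp_bound hd1 hcu hdv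
    have h9 : 0 ≤ HH (x, y) := by unfold HH; positivity
    calc _ ≤ (sin (2 * π * x) ^ 2 * exp (2 * (cos (2 * π * x) * (om * cos (2 * π * y))))) *
            (sin (2 * π * y) ^ 2 *
              exp (2 * (cos (2 * π * y) * (-(om * cos (2 * π * x1)))))) := by gcongr
      _ = HH (x, y) * exp (2 * (cos (2 * π * x) * (om * cos (2 * π * y))) +
            2 * (cos (2 * π * y) * (-(om * cos (2 * π * x1))))) := by
          rw [exp_add]; unfold HH; ring
      _ ≤ _ := mul_le_mul_of_nonneg_left h7 h9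
  · intro hu0 hv0
    have hβ0 : -(om * cos (2 * π * x1)) = 0 := by rw [hu0]; ring
    have hd0 : cos (2 * π * y) = 0 := by
      rw [hβ0] at hvd
      rw [hv0] at hvd
      unfold c1 at hvd
      simpa using hvd.symm
    refine ⟨?_, hd0⟩
    rw [hu0, hd0] at huc
    unfold c1 at huc
    simpa using huc.symm

lemma HH_nonneg (z : Plane) : 0 ≤ HH z := by unfold HH; positivity

theorem HH_le (z : Plane) : HH (FF z) ≤ HH z := by
  obtain ⟨u, v, h, -⟩ := HH_main z
  have hM := MM_ge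
  have h0 := HH_nonneg z
  have h1 := HH_nonneg (FF z)
  by_contra hlt
  push Not at hlt
  have e1 : 1 + 1 / 25 * v ^ 2 + 1 / 2500 * u ^ 2 ≤ (1 + MM * u ^ 2) * (1 + MM * v ^ 2) := by
    have : 0 ≤ MM * u ^ 2 * (MM * v ^ 2) := by positivity
    nlinarith [sq_nonneg u, sq_nonneg v]
  have e2 : 0 < 1 + 1 / 25 * v ^ 2 + 1 / 2500 * u ^ 2 := by positivity
  have e3 : HH z * (1 + 1 / 25 * v ^ 2 + 1 / 2500 * u ^ 2) <
      HH (FF z) * (1 + 1 / 25 * v ^ 2 + 1 / 2500 * u ^ 2) := by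
    apply mul_lt_mul_of_pos_right hlt e2
  have e4 : HH (FF z) * (1 + 1 / 25 * v ^ 2 + 1 / 2500 * u ^ 2) ≤
      HH (FF z) * ((1 + MM * u ^ 2) * (1 + MM * v ^ 2)) := by gcongr
  linarith

theorem HH_eq (z : Plane) (h : HH (FF z) = HH z) :
    HH z = 0 ∨ (cos (2 * π * z.1) = 0 ∧ cos (2 * π * z.2) = 0) := by
  obtain ⟨u, v, h1, h2⟩ := HH_main z
  by_cases h0 : HH z = 0
  · exact Or.inl h0
  right
  have hpos : 0 < HH z := lt_of_le_of_ne (HH_nonneg z) (Ne.symm h0)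
  rw [h] at h1
  have hM := MM_ge
  have e0 := le_of_mul_le_mul_left h1 hpos
  have e1 : 0 ≤ MM * u ^ 2 * (MM * v ^ 2) := by positivity
  have e2 : 1 / 20 * u ^ 2 ≤ MM * u ^ 2 := by gcongr
  have e3 : 1 / 20 * v ^ 2 ≤ MM * v ^ 2 := by gcongr
  have e4 : 1 / 20 * u ^ 2 + 1 / 20 * v ^ 2 ≤ 1 / 25 * v ^ 2 + 1 / 2500 * u ^ 2 := by nlinarith
  have hu : u ^ 2 = 0 := by nlinarith [sq_nonneg u, sq_nonneg v]
  have hv : v ^ 2 = 0 := by nlinarith [sq_nonneg u, sq_nonneg v]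
  exact h2 (pow_eq_zero_iff (two_ne_zero) |>.1 hu) (pow_eq_zero_iff (two_ne_zero) |>.1 hv)

/-! ### The invariant circles -/

/-- the first half step on the invariant circles -/
def u1 (u : ℝ) : ℝ := (u * cosh om + sinh om) / (cosh om + u * sinh om)

/-- the map on the invariant circles -/
def stp (u : ℝ) : ℝ := u1 u / √(u1 u ^ 2 + exp (-ka) ^ 2 * (1 - u1 u ^ 2))

lemma sq_eq_one_iff_of_side' {c : ℝ} (h : c ^ 2 = 1) : c = 1 ∨ c = -1 := by
  rcases mul_eq_zero.1 (by nlinarith : (c - 1) * (c + 1) = 0) with h | h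
  · left; linarith
  · right; linarith

lemma om_lt : exp (-om) < exp (-ka) := by
  apply exp_lt_exp.2
  unfold om ka
  norm_num

lemma stp_gt {u : ℝ} (h1 : -1 < u) (h2 : u < 1) : u < stp u := by
  have hsh : 0 < sinh om := by
    rw [Real.sinh_pos_iff]; unfold om; norm_num
  have hch : 0 < cosh om := cosh_pos om
  have hcs := cosh_sq_sub_sinh_sq om
  have hlt : sinh om < cosh om := sinh_lt_cosh om
  have hden : 0 < cosh om + u * sinh om := by nlinarith
  have hE := exp_pos (-ka)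
  have hE1 : exp (-ka) < 1 := by
    rw [exp_lt_one_iff]; unfold ka; norm_num
  have hkey : cosh om - exp (-ka) < sinh om := by
    have := om_lt
    rw [← cosh_sub_sinh] at this
    linarith
  have hu1 : u1 u * (cosh om + u * sinh om) = u * cosh om + sinh om := by
    unfold u1; field_simp
  have h1u : (1 - u1 u ^ 2) * (cosh om + u * sinh om) ^ 2 = 1 - u ^ 2 := by
    have : (1 - u1 u ^ 2) * (cosh om + u * sinh om) ^ 2 =
      (cosh om + u * sinh om) ^ 2 - (u1 u * (cosh om + u * sinh om)) ^ 2 := by ring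
    rw [this, hu1]
    linear_combination (1 - u ^ 2) * hcs
  have h1u' : 0 < 1 - u1 u ^ 2 := by
    by_contra hh
    push Not at hh
    have : (1 - u1 u ^ 2) * (cosh om + u * sinh om) ^ 2 ≤ 0 :=
      mul_nonpos_of_nonpos_of_nonneg hh (by positivity)
    nlinarith
  have hgt : u < u1 u := by
    unfold u1
    rw [lt_div_iff₀ hden]
    have : 0 < sinh om * (1 - u ^ 2) := by
      apply mul_pos hsh; nlinarith
    nlinarith
  set w := u1 u with hw
  have hR : 0 < w ^ 2 + exp (-ka) ^ 2 * (1 - w ^ 2) := by positivity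
  have hs : 0 < √(w ^ 2 + exp (-ka) ^ 2 * (1 - w ^ 2)) := Real.sqrt_pos.2 hR
  have hR1 : w ^ 2 + exp (-ka) ^ 2 * (1 - w ^ 2) ≤ 1 := by
    have : exp (-ka) ^ 2 ≤ 1 := by nlinarith
    nlinarith
  unfold stp
  rw [← hw]
  rcases le_or_gt 0 w with hw0 | hw0
  · have h3 : √(w ^ 2 + exp (-ka) ^ 2 * (1 - w ^ 2)) ≤ 1 := by
      exact Real.sqrt_le_one.2 hR1
    calc u < w := hgt
      _ ≤ w / √(w ^ 2 + exp (-ka) ^ 2 * (1 - w ^ 2)) := by
        rw [le_div_iff₀ hs]
        nlinarith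
  · rw [lt_div_iff₀ hs]
    have hu0 : u < 0 := lt_trans hgt hw0
    have h4 : (-w) ^ 2 < (-u) ^ 2 * (w ^ 2 + exp (-ka) ^ 2 * (1 - w ^ 2)) := by
      have h5 : w * (cosh om + u * sinh om) = u * cosh om + sinh om := hu1
      have h6 : (u * cosh om + sinh om) ^ 2 < exp (-ka) ^ 2 * u ^ 2 := by
        have h7 : 0 < -(u * cosh om + sinh om) := by
          rw [← h5]; nlinarith
        have h8 : -(u * cosh om + sinh om) < exp (-ka) * (-u) := by nlinarith
        nlinarith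
      have h9 : (w ^ 2 * (1 - u ^ 2)) * (cosh om + u * sinh om) ^ 2 <
          (exp (-ka) ^ 2 * u ^ 2 * (1 - w ^ 2)) * (cosh om + u * sinh om) ^ 2 := by
        have e1 : (w ^ 2 * (1 - u ^ 2)) * (cosh om + u * sinh om) ^ 2 =
          (w * (cosh om + u * sinh om)) ^ 2 * (1 - u ^ 2) := by ring
        have e2 : (exp (-ka) ^ 2 * u ^ 2 * (1 - w ^ 2)) * (cosh om + u * sinh om) ^ 2 =
          exp (-ka) ^ 2 * u ^ 2 * ((1 - w ^ 2) * (cosh om + u * sinh om) ^ 2) := by ring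
        rw [e1, e2, h5, h1u]
        have : 0 < 1 - u ^ 2 := by nlinarith
        exact mul_lt_mul_of_pos_right h6 this
      have h10 : w ^ 2 * (1 - u ^ 2) < exp (-ka) ^ 2 * u ^ 2 * (1 - w ^ 2) :=
        lt_of_mul_lt_mul_right h9 (by positivity)
      nlinarith
    have h5 : -w < -u * √(w ^ 2 + exp (-ka) ^ 2 * (1 - w ^ 2)) := by
      apply lt_of_pow_lt_pow_left₀ 2 (by apply mul_nonneg; linarith; exact hs.le)
      rw [mul_pow, Real.sq_sqrt hR.le]
      exact h4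
    linarith

/-- on the invariant circles the product of the cosines moves by `stp` -/
lemma stp_of {c : ℝ} (y : ℝ) (hc2 : c ^ 2 = 1) :
    c * cos (2 * π * YY (-ka) (XX y (-(om * c)))) = stp (c * cos (2 * π * y)) := by
  have hch : cosh (-(om * c)) = cosh om := by
    rw [cosh_neg]
    rcases sq_eq_one_iff_of_side' hc2 with h | h <;> rw [h] <;> simp
  have hsh : sinh (-(om * c)) = -(c * sinh om) := by
    rw [sinh_neg]
    rcases sq_eq_one_iff_of_side' hc2 with h | h <;> rw [h] <;> simp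
  have hden := den_pos (cos (2 * π * y)) (-(om * c)) (neg_one_le_cos _) (cos_le_one _)
  have h1 : c * cos (2 * π * XX y (-(om * c))) = u1 (c * cos (2 * π * y)) := by
    rw [cos_two_pi_XX]
    rw [hch, hsh] at hden ⊢
    unfold u1
    have e1 : cosh om + c * cos (2 * π * y) * sinh om =
      cosh om - cos (2 * π * y) * -(c * sinh om) := by ring
    rw [e1, ← mul_div_assoc]
    congr 1
    linear_combination (sinh om) * hc2
  have h2 := sin_sq_add_cos_sq (2 * π * XX y (-(om * c)))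
  unfold stp
  rw [← h1, cos_YY]
  have h3 : (c * cos (2 * π * XX y (-(om * c)))) ^ 2 = cos (2 * π * XX y (-(om * c))) ^ 2 := by
    rw [mul_pow, hc2, one_mul]
  have h4 : 1 - (c * cos (2 * π * XX y (-(om * c)))) ^ 2 =
      sin (2 * π * XX y (-(om * c))) ^ 2 := by rw [h3]; linarith
  rw [h4, h3, mul_div_assoc]

lemma cos_YY_of_sin {x : ℝ} (κ : ℝ) (h : sin (2 * π * x) = 0) :
    cos (2 * π * YY κ x) = cos (2 * π * x) := by
  have hs1 := sin_sq_add_cos_sq (2 * π * x)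
  have hc2 : cos (2 * π * x) ^ 2 = 1 := by rw [h] at hs1; linarith
  rw [cos_YY, h, hc2]; simp

lemma cos_XX_of_sin {x : ℝ} (α : ℝ) (h : sin (2 * π * x) = 0) :
    cos (2 * π * XX x α) = cos (2 * π * x) := by
  have hs1 := sin_sq_add_cos_sq (2 * π * x)
  have hc2 : cos (2 * π * x) ^ 2 = 1 := by rw [h] at hs1; linarith
  have hden := den_pos (cos (2 * π * x)) α (neg_one_le_cos _) (cos_le_one _)
  rw [cos_two_pi_XX, div_eq_iff hden.ne']
  linear_combination (sinh α) * hc2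

lemma sin_XX_of_sin {x : ℝ} (α : ℝ) (h : sin (2 * π * x) = 0) :
    sin (2 * π * XX x α) = 0 := by
  rw [sin_two_pi_XX, h, zero_div]

lemma sin_YY_of_sin {x : ℝ} (κ : ℝ) (h : sin (2 * π * x) = 0) :
    sin (2 * π * YY κ x) = 0 := by
  rw [sin_YY, h]; simp

/-- the product of the cosines -/
def PP (z : Plane) : ℝ := cos (2 * π * z.1) * cos (2 * π * z.2)

lemma circle1 (z : Plane) (h : sin (2 * π * z.1) = 0) :
    sin (2 * π * (FF z).1) = 0 ∧ PP (FF z) = stp (PP z) := by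
  have hs1 := sin_sq_add_cos_sq (2 * π * z.1)
  have hc2 : cos (2 * π * z.1) ^ 2 = 1 := by rw [h] at hs1; linarith
  rw [FF_eq]
  unfold PP
  simp only
  rw [cos_YY_of_sin _ (sin_XX_of_sin _ h), cos_XX_of_sin _ h]
  exact ⟨sin_YY_of_sin _ (sin_XX_of_sin _ h), stp_of z.2 hc2⟩

lemma circle2 (z : Plane) (h : sin (2 * π * z.2) = 0) :
    sin (2 * π * (FF z).2) = 0 ∧ PP (FF z) = -stp (-PP z) := by
  have hs1 := sin_sq_add_cos_sq (2 * π * z.2)
  have hc2 : cos (2 * π * z.2) ^ 2 = 1 := by rw [h] at hs1; linarith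
  rw [FF_eq]
  unfold PP
  simp only
  rw [cos_YY_of_sin _ (sin_XX_of_sin _ h), cos_XX_of_sin _ h]
  refine ⟨sin_YY_of_sin _ (sin_XX_of_sin _ h), ?_⟩
  have := stp_of (c := -cos (2 * π * z.2)) z.1 (by rw [neg_sq, hc2])
  rw [show -(om * -cos (2 * π * z.2)) = om * cos (2 * π * z.2) by ring] at this
  rw [show -(cos (2 * π * z.1) * cos (2 * π * z.2)) = -cos (2 * π * z.2) * cos (2 * π * z.1) by ring,
    ← this]
  ring

lemma stp_one : stp 1 = 1 := by
  unfold stp u1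
  have : 0 < cosh om + 1 * sinh om := by rw [one_mul, cosh_add_sinh]; exact exp_pos _
  rw [show (1 * cosh om + sinh om) / (cosh om + 1 * sinh om) = 1 by
    rw [div_eq_one_iff_eq this.ne']; ring]
  simp

lemma stp_neg_one : stp (-1) = -1 := by
  unfold stp u1
  have : 0 < cosh om + (-1) * sinh om := by
    have := exp_pos (-om)
    rw [← cosh_sub_sinh] at this
    linarith
  rw [show ((-1) * cosh om + sinh om) / (cosh om + (-1) * sinh om) = -1 by
    rw [div_eq_iff this.ne']; ring]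
  simp

lemma abs_PP_le (z : Plane) : |PP z| ≤ 1 := by
  unfold PP
  rw [abs_mul]
  have h1 := abs_cos_le_one (2 * π * z.1)
  have h2 := abs_cos_le_one (2 * π * z.2)
  nlinarith [abs_nonneg (cos (2 * π * z.1)), abs_nonneg (cos (2 * π * z.2))]

lemma le_stp {u : ℝ} (h : |u| ≤ 1) : u ≤ stp u := by
  rw [abs_le] at h
  rcases eq_or_lt_of_le h.1 with h1 | h1
  · rw [← h1, stp_neg_one]
  rcases eq_or_lt_of_le h.2 with h2 | h2
  · rw [h2, stp_one]
  exact (stp_gt h1 h2).le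

lemma abs_eq_of_stp {u : ℝ} (h : |u| ≤ 1) (h0 : stp u = u) : u ^ 2 = 1 := by
  rw [abs_le] at h
  rcases eq_or_lt_of_le h.1 with h1 | h1
  · rw [← h1]; norm_num
  rcases eq_or_lt_of_le h.2 with h2 | h2
  · rw [h2]; norm_num
  have := stp_gt h1 h2
  linarith

end

end Pool.Agent.N252.HC
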