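import Pool.Agent.N252.HC.Expo

/-!
# All invariant measures violate the entropy formula
-/

set_option autoImplicit false

open Real Set Filter Topology MeasureTheory
open scoped ContDiff
open Pool.Agent.TH292.MR Pool.Agent.Helper179.KS

namespace Pool.Agent.N252.HC

noncomputable section

open Classical in
/-- the sum of the positive exponents -/
def chi (x : Torus) : ℝ := if cT x.1 = 0 ∧ cT x.2 = 0 then 2 * ka else om - ka

lemma measurable_chi : Measurable chi := by
  unfold chi
  apply Measurable.ite _ measurable_const measurable_const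
  have h1 : IsClosed {x : Torus | cT x.1 = 0} :=
    isClosed_eq (continuous_cT.comp continuous_fst) continuous_const
  have h2 : IsClosed {x : Torus | cT x.2 = 0} :=
    isClosed_eq (continuous_cT.comp continuous_snd) continuous_const
  exact (h1.inter h2).measurableSet

lemma chi_ge (x : Torus) : 1 / 40 ≤ chi x := by
  unfold chi
  split_ifs
  · unfold ka; norm_num
  · unfold om ka; norm_num

lemma chi_le (x : Torus) : chi x ≤ 1 / 20 := by
  unfold chi
  split_ifs
  · unfold ka; norm_num
  · unfold om ka; norm_num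

lemma fderiv_iterate {z : Plane} {A : Plane →L[ℝ] Plane} (h : HasFDerivAt FF A z)
    (hz : FF z = z) (n : ℕ) : fderiv ℝ (FF^[n]) z = A ^ n :=
  (HasFDerivAt.iterate h hz n).fderiv

lemma isChiPlus_of_fix {x : Torus} (hx : x ∈ Fix) : IsChiPlus FF x (chi x) := by
  intro z hz
  subst hz
  have hfix := (isFix_iff z).2 hx
  have hFz := FF_fix hfix
  rcases hfix with h | h
  · obtain ⟨s, hs, hd⟩ := deriv_saddle h.1 h.2
    have hchi : chi (proj z) = om - ka := by
      unfold chi
      rw [if_neg]
      rintro ⟨h1, -⟩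
      change cT ((z.1 : ℝ) : UnitAddCircle) = 0 at h1
      rw [cT_coe] at h1
      have := sin_sq_add_cos_sq (2 * π * z.1)
      rw [h1, h.1] at this
      norm_num at this
    rw [hchi]
    refine tendsto_of_bounds one_pos (fun n => ?_) (fun n => ?_)
    · rw [fderiv_iterate hd hFz]
      exact (extNorm_saddle hs n).1
    · rw [fderiv_iterate hd hFz]
      exact (extNorm_saddle hs n).2
  · obtain ⟨t, ht, hd⟩ := deriv_source h.1 h.2
    have hchi : chi (proj z) = 2 * ka := by
      unfold chi
      rw [if_pos]
      constructor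
      · change cT ((z.1 : ℝ) : UnitAddCircle) = 0
        rw [cT_coe]; exact h.1
      · change cT ((z.2 : ℝ) : UnitAddCircle) = 0
        rw [cT_coe]; exact h.2
    rw [hchi]
    refine tendsto_of_bounds (by norm_num : (0 : ℝ) < 3) (fun n => ?_) (fun n => ?_)
    · rw [fderiv_iterate hd hFz]
      exact (extNorm_source ht n).1
    · rw [fderiv_iterate hd hFz]
      exact (extNorm_source ht n).2

lemma integrable_chi (ρ : Measure Torus) [IsProbabilityMeasure ρ] : Integrable chi ρ := by
  apply Integrable.of_bound measurable_chi.aestronglyMeasurable (1 / 20)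
  apply Filter.Eventually.of_forall
  intro x
  rw [Real.norm_eq_abs, abs_of_nonneg]
  · exact chi_le x
  · linarith [chi_ge x]

theorem main_ineq (ρ : Measure Torus) (h : IsInvariant ff ρ) :
    (∀ᵐ x ∂ρ, IsChiPlus FF x (chi x)) ∧
    ksEntropy ρ ff + ((1 / 40 : ℝ) : EReal) ≤ ((∫ x, chi x ∂ρ : ℝ) : EReal) := by
  have := h.prob
  have hFix := ae_mem_Fix h.inv
  refine ⟨?_, ?_⟩
  · filter_upwards [hFix] with x hx
    exact isChiPlus_of_fix hx
  · have h0 : ksEntropy ρ ff = 0 := by
      apply entropy_zero ρ ff.continuous.measurable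
      filter_upwards [hFix] with x hx
      exact ff_fix hx
    rw [h0, zero_add]
    have : (1 / 40 : ℝ) ≤ ∫ x, chi x ∂ρ := by
      calc (1 / 40 : ℝ) = ∫ _, (1 / 40 : ℝ) ∂ρ := by simp
        _ ≤ ∫ x, chi x ∂ρ := integral_mono (integrable_const _) (integrable_chi ρ) chi_ge
    exact_mod_cast this

theorem main_eq : ∃ ρ : Measure Torus, IsInvariant ff ρ ∧
    ksEntropy ρ ff + ((1 / 40 : ℝ) : EReal) = ((∫ x, chi x ∂ρ : ℝ) : EReal) := by
  have hfix0 : IsFix (0, 0) := by left; simp
  have hx : proj (0, 0) ∈ Fix := (isFix_iff _).1 hfix0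
  have hf := ff_fix hx
  refine ⟨Measure.dirac (proj (0, 0)), ⟨inferInstance, ?_⟩, ?_⟩
  · refine ⟨ff.continuous.measurable, ?_⟩
    rw [Measure.map_dirac' ff.continuous.measurable, hf]
  · rw [ksEntropy_dirac _ ff.continuous.measurable, zero_add, integral_dirac]
    have : chi (proj (0, 0)) = 1 / 40 := by
      unfold chi
      rw [if_neg]
      · unfold om ka; norm_num
      · rintro ⟨h1, -⟩
        change cT (((0 : ℝ)) : UnitAddCircle) = 0 at h1
        rw [cT_coe] at h1
        simp at h1
    rw [this]

end

end Pool.Agent.N252.HC
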