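import Pool.Agent.N252.HC.Basic
import Pool.Agent.TH292.MR.Defs

/-!
# The diffeomorphism of the two-torus
-/

set_option autoImplicit false

open Real Set Filter Topology
open scoped ContDiff
open Pool.Agent.TH292.MR

namespace Pool.Agent.N252.HC

noncomputable section

/-- rotation strength -/
def om : ℝ := 1 / 20

/-- expansion strength -/
def ka : ℝ := 1 / 40

/-- the map with four fixed points -/
def YY (κ x : ℝ) : ℝ := XX (2 * x) κ / 2

def F1 (z : Plane) : Plane := (XX z.1 (om * cos (2 * π * z.2)), z.2)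
def F2 (z : Plane) : Plane := (z.1, XX z.2 (-(om * cos (2 * π * z.1))))
def F3 (z : Plane) : Plane := (YY (-ka) z.1, YY (-ka) z.2)
def G1 (z : Plane) : Plane := (XX z.1 (-(om * cos (2 * π * z.2))), z.2)
def G2 (z : Plane) : Plane := (z.1, XX z.2 (om * cos (2 * π * z.1)))
def G3 (z : Plane) : Plane := (YY ka z.1, YY ka z.2)

/-- the lift of the diffeomorphism -/
def FF (z : Plane) : Plane := F3 (F2 (F1 z))

/-- the lift of the inverse -/
def GG (z : Plane) : Plane := G1 (G2 (G3 z))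

lemma YY_YY (κ x : ℝ) : YY (-κ) (YY κ x) = x := by
  unfold YY
  rw [show 2 * (XX (2 * x) κ / 2) = XX (2 * x) κ by ring, XX_XX_neg]
  ring

lemma YY_YY' (κ x : ℝ) : YY κ (YY (-κ) x) = x := by
  have := YY_YY (-κ) x
  rwa [neg_neg] at this

lemma G1_F1 (z : Plane) : G1 (F1 z) = z := by
  unfold G1 F1
  simp only [XX_XX_neg]

lemma F1_G1 (z : Plane) : F1 (G1 z) = z := by
  unfold G1 F1
  simp only [XX_neg_XX]

lemma G2_F2 (z : Plane) : G2 (F2 z) = z := by
  unfold G2 F2
  simp only [XX_neg_XX]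

lemma F2_G2 (z : Plane) : F2 (G2 z) = z := by
  unfold G2 F2
  simp only [XX_XX_neg]

lemma G3_F3 (z : Plane) : G3 (F3 z) = z := by
  unfold G3 F3
  simp only [YY_YY']

lemma F3_G3 (z : Plane) : F3 (G3 z) = z := by
  unfold G3 F3
  simp only [YY_YY]

lemma GG_FF (z : Plane) : GG (FF z) = z := by
  unfold GG FF
  rw [G3_F3, G2_F2, G1_F1]

lemma FF_GG (z : Plane) : FF (GG z) = z := by
  unfold GG FF
  rw [F1_G1, F2_G2, F3_G3]

lemma contDiff_F1 : ContDiff ℝ ∞ F1 := by
  unfold F1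
  apply ContDiff.prodMk _ contDiff_snd
  have h : ContDiff ℝ ∞ (fun z : Plane => ((z.1, om * cos (2 * π * z.2)) : ℝ × ℝ)) := by
    fun_prop
  exact contDiff_XX.comp h

lemma contDiff_F2 : ContDiff ℝ ∞ F2 := by
  unfold F2
  apply ContDiff.prodMk contDiff_fst
  have h : ContDiff ℝ ∞ (fun z : Plane => ((z.2, -(om * cos (2 * π * z.1))) : ℝ × ℝ)) := by
    fun_prop
  exact contDiff_XX.comp h

lemma contDiff_G1 : ContDiff ℝ ∞ G1 := by
  unfold G1
  apply ContDiff.prodMk _ contDiff_snd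
  have h : ContDiff ℝ ∞ (fun z : Plane => ((z.1, -(om * cos (2 * π * z.2))) : ℝ × ℝ)) := by
    fun_prop
  exact contDiff_XX.comp h

lemma contDiff_G2 : ContDiff ℝ ∞ G2 := by
  unfold G2
  apply ContDiff.prodMk contDiff_fst
  have h : ContDiff ℝ ∞ (fun z : Plane => ((z.2, om * cos (2 * π * z.1)) : ℝ × ℝ)) := by
    fun_prop
  exact contDiff_XX.comp h

lemma contDiff_YY (κ : ℝ) : ContDiff ℝ ∞ (YY κ) := by
  unfold YY
  have h : ContDiff ℝ ∞ (fun x : ℝ => ((2 * x, κ) : ℝ × ℝ)) := by fun_prop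
  exact (contDiff_XX.comp h).div_const 2

lemma contDiff_F3 : ContDiff ℝ ∞ F3 :=
  ((contDiff_YY (-ka)).comp contDiff_fst).prodMk ((contDiff_YY (-ka)).comp contDiff_snd)

lemma contDiff_G3 : ContDiff ℝ ∞ G3 :=
  ((contDiff_YY ka).comp contDiff_fst).prodMk ((contDiff_YY ka).comp contDiff_snd)

lemma contDiff_FF : ContDiff ℝ ∞ FF := contDiff_F3.comp (contDiff_F2.comp contDiff_F1)

lemma contDiff_GG : ContDiff ℝ ∞ GG := contDiff_G1.comp (contDiff_G2.comp contDiff_G3)

/-! ### Equivariance -/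

lemma XX_add_nat (x α : ℝ) (n : ℕ) : XX (x + n) α = XX x α + n := by
  induction n with
  | zero => simp
  | succ n ih =>
    have : x + ((n + 1 : ℕ) : ℝ) = (x + n) + 1 := by push_cast; ring
    rw [this, XX_add_one, ih]
    push_cast; ring

lemma XX_add_int (x α : ℝ) (n : ℤ) : XX (x + n) α = XX x α + n := by
  rcases Int.eq_nat_or_neg n with ⟨m, rfl | rfl⟩
  · exact_mod_cast XX_add_nat x α m
  · have := XX_add_nat (x + (-(m : ℤ) : ℤ)) α m
    rw [show x + ((-(m : ℤ) : ℤ) : ℝ) + (m : ℝ) = x by push_cast; ring] at this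
    rw [this]
    push_cast; ring

lemma YY_add_int (κ x : ℝ) (n : ℤ) : YY κ (x + n) = YY κ x + n := by
  unfold YY
  have : 2 * (x + (n : ℝ)) = 2 * x + ((2 * n : ℤ) : ℝ) := by push_cast; ring
  rw [this, XX_add_int]
  push_cast; ring

lemma cos_add_int (x : ℝ) (n : ℤ) : cos (2 * π * (x + n)) = cos (2 * π * x) := by
  have : 2 * π * (x + (n : ℝ)) = 2 * π * x + n * (2 * π) := by ring
  rw [this, Real.cos_add_int_mul_two_pi]

/-- integer translation -/
def tr (m n : ℤ) (z : Plane) : Plane := (z.1 + m, z.2 + n)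

lemma F1_tr (m n : ℤ) (z : Plane) : F1 (tr m n z) = tr m n (F1 z) := by
  unfold F1 tr
  simp only [cos_add_int, XX_add_int]

lemma F2_tr (m n : ℤ) (z : Plane) : F2 (tr m n z) = tr m n (F2 z) := by
  unfold F2 tr
  simp only [cos_add_int, XX_add_int]

lemma F3_tr (m n : ℤ) (z : Plane) : F3 (tr m n z) = tr m n (F3 z) := by
  unfold F3 tr
  simp only [YY_add_int]

lemma G1_tr (m n : ℤ) (z : Plane) : G1 (tr m n z) = tr m n (G1 z) := by
  unfold G1 tr
  simp only [cos_add_int, XX_add_int]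

lemma G2_tr (m n : ℤ) (z : Plane) : G2 (tr m n z) = tr m n (G2 z) := by
  unfold G2 tr
  simp only [cos_add_int, XX_add_int]

lemma G3_tr (m n : ℤ) (z : Plane) : G3 (tr m n z) = tr m n (G3 z) := by
  unfold G3 tr
  simp only [YY_add_int]

lemma FF_tr (m n : ℤ) (z : Plane) : FF (tr m n z) = tr m n (FF z) := by
  unfold FF
  rw [F1_tr, F2_tr, F3_tr]

lemma GG_tr (m n : ℤ) (z : Plane) : GG (tr m n z) = tr m n (GG z) := by
  unfold GG
  rw [G3_tr, G2_tr, G1_tr]

lemma coe_eq_iff {x y : ℝ} : (x : UnitAddCircle) = (y : UnitAddCircle) ↔ ∃ m : ℤ, x = y + m := by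
  constructor
  · intro h
    rw [eq_comm, QuotientAddGroup.eq_iff_sub_mem] at h
    rw [AddSubgroup.mem_zmultiples_iff] at h
    obtain ⟨k, hk⟩ := h
    refine ⟨-k, ?_⟩
    simp only [zsmul_eq_mul, mul_one] at hk
    push_cast
    linarith
  · rintro ⟨m, rfl⟩
    rw [eq_comm, QuotientAddGroup.eq_iff_sub_mem, AddSubgroup.mem_zmultiples_iff]
    exact ⟨-m, by simp⟩

lemma proj_eq_iff {z w : Plane} : proj z = proj w ↔ ∃ m n : ℤ, z = tr m n w := by
  unfold proj tr
  rw [Prod.mk.injEq, coe_eq_iff, coe_eq_iff]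
  constructor
  · rintro ⟨⟨m, hm⟩, ⟨n, hn⟩⟩
    exact ⟨m, n, Prod.ext hm hn⟩
  · rintro ⟨m, n, h⟩
    exact ⟨⟨m, congrArg Prod.fst h⟩, ⟨n, congrArg Prod.snd h⟩⟩

lemma isOpenQuotientMap_proj : IsOpenQuotientMap proj := by
  have h : IsOpenQuotientMap (fun x : ℝ => (x : UnitAddCircle)) :=
    QuotientAddGroup.isOpenQuotientMap_mk
  exact h.prodMap h

lemma proj_surjective : Function.Surjective proj := isOpenQuotientMap_proj.surjective

/-- the map of the torus induced by a map of the plane -/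
def desc (F : Plane → Plane) (x : Torus) : Torus := proj (F (Function.surjInv proj_surjective x))

lemma desc_proj {F : Plane → Plane} (hF : ∀ m n z, F (tr m n z) = tr m n (F z)) (z : Plane) :
    desc F (proj z) = proj (F z) := by
  unfold desc
  have h := Function.surjInv_eq proj_surjective (proj z)
  obtain ⟨m, n, hmn⟩ := proj_eq_iff.1 h
  rw [hmn, hF, proj_eq_iff]
  exact ⟨m, n, rfl⟩

lemma continuous_desc {F : Plane → Plane} (hF : ∀ m n z, F (tr m n z) = tr m n (F z))
    (hc : Continuous F) : Continuous (desc F) := by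
  rw [isOpenQuotientMap_proj.isQuotientMap.continuous_iff]
  have : desc F ∘ proj = proj ∘ F := funext fun z => desc_proj hF z
  rw [this]
  exact isOpenQuotientMap_proj.continuous.comp hc

/-- the diffeomorphism of the torus -/
def ff : Torus ≃ₜ Torus where
  toFun := desc FF
  invFun := desc GG
  left_inv := by
    intro x
    obtain ⟨z, rfl⟩ := proj_surjective x
    rw [desc_proj FF_tr, desc_proj GG_tr, GG_FF]
  right_inv := by
    intro x
    obtain ⟨z, rfl⟩ := proj_surjective x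
    rw [desc_proj GG_tr, desc_proj FF_tr, FF_GG]
  continuous_toFun := continuous_desc FF_tr contDiff_FF.continuous
  continuous_invFun := continuous_desc GG_tr contDiff_GG.continuous

lemma ff_proj (z : Plane) : ff (proj z) = proj (FF z) := desc_proj FF_tr z

lemma ff_symm_proj (z : Plane) : ff.symm (proj z) = proj (GG z) := desc_proj GG_tr z

theorem isSmoothDiffeo_ff : IsSmoothDiffeo ff FF GG :=
  ⟨ff_proj, ff_symm_proj, contDiff_FF, contDiff_GG⟩

end

end Pool.Agent.N252.HC
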