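import Pool.Agent.N252.HC.Lyap
import Pool.Agent.Helper179.KSLemmas

/-!
# Invariant measures
-/

set_option autoImplicit false

open Real Set Filter Topology MeasureTheory
open scoped ContDiff
open Pool.Agent.TH292.MR

namespace Pool.Agent.N252.HC

noncomputable section

/-- cosine on the circle -/
def cT (x : UnitAddCircle) : ℝ := ((AddCircle.toCircle x : Circle) : ℂ).re

/-- sine on the circle -/
def sT (x : UnitAddCircle) : ℝ := ((AddCircle.toCircle x : Circle) : ℂ).im

lemma cT_coe (x : ℝ) : cT (x : UnitAddCircle) = cos (2 * π * x) := by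
  unfold cT
  rw [AddCircle.toCircle_apply_mk, Circle.coe_exp, div_one, Complex.exp_ofReal_mul_I_re]

lemma sT_coe (x : ℝ) : sT (x : UnitAddCircle) = sin (2 * π * x) := by
  unfold sT
  rw [AddCircle.toCircle_apply_mk, Circle.coe_exp, div_one, Complex.exp_ofReal_mul_I_im]

lemma continuous_cT : Continuous cT :=
  Complex.continuous_re.comp (continuous_subtype_val.comp AddCircle.continuous_toCircle)

lemma continuous_sT : Continuous sT :=
  Complex.continuous_im.comp (continuous_subtype_val.comp AddCircle.continuous_toCircle)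

/-- the Lyapunov function on the torus -/
def HT (x : Torus) : ℝ := sT x.1 ^ 2 * sT x.2 ^ 2

/-- the product of the cosines on the torus -/
def PT (x : Torus) : ℝ := cT x.1 * cT x.2

lemma HT_proj (z : Plane) : HT (proj z) = HH z := by
  unfold HT HH proj
  simp only [sT_coe]

lemma PT_proj (z : Plane) : PT (proj z) = PP z := by
  unfold PT PP proj
  simp only [cT_coe]

lemma continuous_HT : Continuous HT := by
  unfold HT
  exact ((continuous_sT.comp continuous_fst).pow 2).mul ((continuous_sT.comp continuous_snd).pow 2)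

lemma continuous_PT : Continuous PT := by
  unfold PT
  exact (continuous_cT.comp continuous_fst).mul (continuous_cT.comp continuous_snd)

lemma integrable_of_continuous (ρ : Measure Torus) [IsProbabilityMeasure ρ] {φ : Torus → ℝ}
    (h : Continuous φ) : Integrable φ ρ :=
  h.integrable_of_hasCompactSupport (HasCompactSupport.of_compactSpace φ)

lemma ae_eq_of_le {ρ : Measure Torus} [IsProbabilityMeasure ρ] {f : Torus ≃ₜ Torus}
    (hf : MeasurePreserving f ρ ρ) {φ : Torus → ℝ} (hφ : Integrable φ ρ)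
    (hle : ∀ x, φ x ≤ φ (f x)) : ∀ᵐ x ∂ρ, φ (f x) = φ x := by
  have h1 : Integrable (fun x => φ (f x)) ρ := hf.integrable_comp_of_integrable hφ
  have h2 : ∫ x, φ (f x) ∂ρ = ∫ x, φ x ∂ρ := hf.integral_comp f.measurableEmbedding φ
  have h3 : ∫ x, (φ (f x) - φ x) ∂ρ = 0 := by
    rw [integral_sub h1 hφ, h2, sub_self]
  have h4 := (integral_eq_zero_iff_of_nonneg (fun x => sub_nonneg.2 (hle x)) (h1.sub hφ)).1 h3
  filter_upwards [h4] with x hx
  have : φ (f x) - φ x = 0 := hx
  linarith

/-- the fixed points -/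
def Fix : Set Torus := {x | (sT x.1 = 0 ∧ sT x.2 = 0) ∨ (cT x.1 = 0 ∧ cT x.2 = 0)}

lemma sT_ff1 {x : Torus} (h : sT x.1 = 0) : sT (ff x).1 = 0 ∧ PT (ff x) = stp (PT x) := by
  obtain ⟨z, rfl⟩ := proj_surjective x
  rw [ff_proj, PT_proj, PT_proj]
  have h' : sin (2 * π * z.1) = 0 := by rw [← sT_coe]; exact h
  have := circle1 z h'
  refine ⟨?_, this.2⟩
  show sT (((FF z).1 : ℝ) : UnitAddCircle) = 0
  rw [sT_coe]; exact this.1

lemma sT_ff2 {x : Torus} (h : sT x.2 = 0) : sT (ff x).2 = 0 ∧ PT (ff x) = -stp (-PT x) := by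
  obtain ⟨z, rfl⟩ := proj_surjective x
  rw [ff_proj, PT_proj, PT_proj]
  have h' : sin (2 * π * z.2) = 0 := by rw [← sT_coe]; exact h
  have := circle2 z h'
  refine ⟨?_, this.2⟩
  show sT (((FF z).2 : ℝ) : UnitAddCircle) = 0
  rw [sT_coe]; exact this.1

lemma abs_PT_le (x : Torus) : |PT x| ≤ 1 := by
  obtain ⟨z, rfl⟩ := proj_surjective x
  rw [PT_proj]; exact abs_PP_le z

lemma cs_sq (x : UnitAddCircle) : sT x ^ 2 + cT x ^ 2 = 1 := by
  obtain ⟨y, rfl⟩ := QuotientAddGroup.mk_surjective x
  have h1 := cT_coe y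
  have h2 := sT_coe y
  change sT (y : UnitAddCircle) ^ 2 + cT (y : UnitAddCircle) ^ 2 = 1
  rw [h1, h2]
  exact sin_sq_add_cos_sq _

/-- a function which is `g` on the closed set `A` and `m` elsewhere -/
theorem ae_A {ρ : Measure Torus} [IsProbabilityMeasure ρ] (hf : MeasurePreserving ff ρ ρ)
    {A : Set Torus} (hA : IsClosed A) (hAf : ∀ x ∈ A, ff x ∈ A) {g : Torus → ℝ}
    (hg : Continuous g) (hb : ∀ x, |g x| ≤ 1) (hle : ∀ x ∈ A, g x ≤ g (ff x)) :
    ∀ᵐ x ∂ρ, x ∈ A → g (ff x) = g x := by
  classical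
  set φ : Torus → ℝ := fun x => A.indicator (fun x => g x + 2) x with hφ
  have hi : Integrable φ ρ :=
    (integrable_of_continuous ρ (hg.add continuous_const)).indicator hA.measurableSet
  have hm : ∀ x, φ x ≤ φ (ff x) := by
    intro x
    simp only [hφ]
    by_cases hx : x ∈ A
    · rw [indicator_of_mem hx, indicator_of_mem (hAf x hx)]
      linarith [hle x hx]
    · rw [indicator_of_notMem hx]
      apply indicator_nonneg
      intro y _
      have := (abs_le.1 (hb y)).1
      linarith
  filter_upwards [ae_eq_of_le hf hi hm] with x hx hxA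
  simp only [hφ] at hx
  rw [indicator_of_mem hxA, indicator_of_mem (hAf x hxA)] at hx
  linarith

theorem ae_mem_Fix {ρ : Measure Torus} [IsProbabilityMeasure ρ] (hf : MeasurePreserving ff ρ ρ) :
    ∀ᵐ x ∂ρ, x ∈ Fix := by
  have hH : ∀ᵐ x ∂ρ, -HT (ff x) = -HT x := by
    apply ae_eq_of_le hf (φ := fun x => -HT x) (integrable_of_continuous ρ continuous_HT.neg)
    intro x
    obtain ⟨z, rfl⟩ := proj_surjective x
    rw [ff_proj, HT_proj, HT_proj]
    exact neg_le_neg (HH_le z)
  have h1 : ∀ᵐ x ∂ρ, x ∈ {x : Torus | sT x.1 = 0} → PT (ff x) = PT x := by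
    apply ae_A hf _ _ continuous_PT abs_PT_le
    · intro x hx
      rw [(sT_ff1 hx).2]
      exact le_stp (abs_PT_le x)
    · exact isClosed_eq (continuous_sT.comp continuous_fst) continuous_const
    · intro x hx; exact (sT_ff1 hx).1
  have h2 : ∀ᵐ x ∂ρ, x ∈ {x : Torus | sT x.2 = 0} → -PT (ff x) = -PT x := by
    apply ae_A hf (g := fun x => -PT x) _ _ continuous_PT.neg
      (fun x => by rw [abs_neg]; exact abs_PT_le x)
    · intro x hx
      rw [(sT_ff2 hx).2, neg_neg]
      exact le_stp (by rw [abs_neg]; exact abs_PT_le x)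
    · exact isClosed_eq (continuous_sT.comp continuous_snd) continuous_const
    · intro x hx; exact (sT_ff2 hx).1
  filter_upwards [hH, h1, h2] with x hx hx1 hx2
  have hcase : sT x.1 = 0 ∨ sT x.2 = 0 ∨ (cT x.1 = 0 ∧ cT x.2 = 0) := by
    obtain ⟨z, rfl⟩ := proj_surjective x
    rw [ff_proj, HT_proj, HT_proj] at hx
    have := HH_eq z (neg_injective hx)
    rcases this with h | h
    · unfold HH at h
      rcases mul_eq_zero.1 h with h | h
      · left
        show sT ((z.1 : ℝ) : UnitAddCircle) = 0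
        rw [sT_coe]; exact pow_eq_zero_iff two_ne_zero |>.1 h
      · right; left
        show sT ((z.2 : ℝ) : UnitAddCircle) = 0
        rw [sT_coe]; exact pow_eq_zero_iff two_ne_zero |>.1 h
    · right; right
      constructor
      · show cT ((z.1 : ℝ) : UnitAddCircle) = 0
        rw [cT_coe]; exact h.1
      · show cT ((z.2 : ℝ) : UnitAddCircle) = 0
        rw [cT_coe]; exact h.2
  have hs1 := cs_sq x.1
  have hs2 := cs_sq x.2
  have key : PT x ^ 2 = 1 → sT x.1 = 0 ∧ sT x.2 = 0 := by
    intro h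
    unfold PT at h
    rw [mul_pow] at h
    have e1 : cT x.1 ^ 2 ≤ 1 := by nlinarith [sq_nonneg (sT x.1)]
    have e2 : cT x.2 ^ 2 ≤ 1 := by nlinarith [sq_nonneg (sT x.2)]
    have e3 := sq_nonneg (cT x.1)
    have e4 := sq_nonneg (cT x.2)
    constructor
    · have : sT x.1 ^ 2 = 0 := by nlinarith [sq_nonneg (sT x.1)]
      exact pow_eq_zero_iff two_ne_zero |>.1 this
    · have : sT x.2 ^ 2 = 0 := by nlinarith [sq_nonneg (sT x.2)]
      exact pow_eq_zero_iff two_ne_zero |>.1 this
  rcases hcase with h | h | h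
  · left
    have := hx1 h
    rw [(sT_ff1 h).2] at this
    exact key (abs_eq_of_stp (abs_PT_le x) this)
  · left
    have := hx2 h
    rw [(sT_ff2 h).2, neg_neg] at this
    have h3 := abs_eq_of_stp (by rw [abs_neg]; exact abs_PT_le x) this
    rw [neg_sq] at h3
    exact key h3
  · right; exact h

/-! ### Fixed points -/

lemma nn_eq (x α : ℝ) : nn x α = (exp α - 1) * (sin (2 * π * x) / 2) := by
  unfold nn
  rw [show 2 * π * x = 2 * (π * x) by ring, sin_two_mul]
  ring

/-- `z` lies over a fixed point -/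
def IsFix (z : Plane) : Prop :=
  (sin (2 * π * z.1) = 0 ∧ sin (2 * π * z.2) = 0) ∨ (cos (2 * π * z.1) = 0 ∧ cos (2 * π * z.2) = 0)

lemma isFix_iff (z : Plane) : IsFix z ↔ proj z ∈ Fix := by
  unfold IsFix Fix proj
  simp only [mem_ofPred_eq, sT_coe, cT_coe]

lemma nn_two_mul {x : ℝ} (κ : ℝ) (h : sin (2 * π * x) = 0 ∨ cos (2 * π * x) = 0) :
    nn (2 * x) κ = 0 := by
  rw [nn_eq, show 2 * π * (2 * x) = 2 * (2 * π * x) by ring, sin_two_mul]
  rcases h with h | h <;> rw [h] <;> ring

lemma YY_fix {x : ℝ} (κ : ℝ) (h : sin (2 * π * x) = 0 ∨ cos (2 * π * x) = 0) : YY κ x = x := by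
  unfold YY
  rw [XX_of_nn (nn_two_mul κ h)]; ring

lemma FF_fix {z : Plane} (h : IsFix z) : FF z = z := by
  rw [FF_eq]
  have e1 : XX z.1 (om * cos (2 * π * z.2)) = z.1 := by
    apply XX_of_nn
    rw [nn_eq]
    rcases h with h | h
    · rw [h.1]; ring
    · rw [h.2]; simp
  have e2 : XX z.2 (-(om * cos (2 * π * z.1))) = z.2 := by
    apply XX_of_nn
    rw [nn_eq]
    rcases h with h | h
    · rw [h.2]; ring
    · rw [h.1]; simp
  rw [e1, e2, YY_fix, YY_fix]
  · rcases h with h | h
    · exact Or.inl h.2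
    · exact Or.inr h.2
  · rcases h with h | h
    · exact Or.inl h.1
    · exact Or.inr h.1

lemma ff_fix {x : Torus} (h : x ∈ Fix) : ff x = x := by
  obtain ⟨z, rfl⟩ := proj_surjective x
  rw [ff_proj, FF_fix ((isFix_iff z).2 h)]

/-! ### The entropy vanishes -/

open Pool.Agent.Helper179.KS in
theorem entropy_zero {X : Type*} [MeasurableSpace X] (ρ : Measure X) [IsProbabilityMeasure ρ]
    {T : X → X} (hT : Measurable T) (h : ∀ᵐ x ∂ρ, T x = x) : ksEntropy ρ T = 0 := by
  apply le_antisymm _ (ksEntropy_nonneg _ _)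
  rw [ksEntropy_le_iff]
  intro k P hP
  unfold partitionEntropy
  have hbound : ∀ n : ℕ, 0 < n → shannonEntropy ρ (itinerary T P n) ≤ shannonEntropy ρ P := by
    intro n hn
    have hae : ∀ w : Fin n → Fin k, ρ.real (itinerary T P n ⁻¹' {w}) =
        ρ.real ((fun x => (fun _ : Fin n => P x)) ⁻¹' {w}) := by
      intro w
      unfold Measure.real
      congr 1
      apply measure_congr
      have e : itinerary T P n =ᵐ[ρ] fun x => (fun _ : Fin n => P x) := by
        filter_upwards [h] with x hx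
        funext j
        unfold itinerary
        rw [Function.iterate_fixed hx]
      exact e.preimage {w}
    unfold shannonEntropy
    simp_rw [hae]
    have himg : ∀ w : Fin n → Fin k, w ∉ Set.range (fun i : Fin k => (fun _ : Fin n => i)) →
        Real.negMulLog (ρ.real ((fun x => (fun _ : Fin n => P x)) ⁻¹' {w})) = 0 := by
      intro w hw
      have : ((fun x => (fun _ : Fin n => P x)) ⁻¹' {w}) = ∅ := by
        ext x
        simp only [mem_preimage, mem_singleton_iff, mem_empty_iff_false, iff_false]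
        intro hx
        exact hw ⟨P x, hx⟩
      rw [this]; simp
    have hinj : Function.Injective (fun i : Fin k => (fun _ : Fin n => i)) := by
      intro i j hij
      exact congrFun hij ⟨0, hn⟩
    rw [← Finset.sum_subset (Finset.subset_univ
      (Finset.univ.image (fun i : Fin k => (fun _ : Fin n => i))))]
    · rw [Finset.sum_image (fun i _ j _ hij => hinj hij)]
      apply le_of_eq
      apply Finset.sum_congr rfl
      intro i _
      congr 2
      ext x
      simp only [mem_preimage, mem_singleton_iff]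
      constructor
      · intro hx; exact congrFun hx ⟨0, hn⟩
      · intro hx; rw [hx]
    · intro w _ hw
      apply himg
      rintro ⟨i, rfl⟩
      exact hw (Finset.mem_image_of_mem _ (Finset.mem_univ i))
  have h0 : ((0 : ℝ) : EReal) = 0 := rfl
  rw [← h0, limsup_coe_le_iff]
  intro ε hε
  have ht : Tendsto (fun n : ℕ => shannonEntropy ρ P / (n : ℝ)) atTop (𝓝 0) :=
    tendsto_const_div_atTop_nhds_zero_nat _
  filter_upwards [ht.eventually (ge_mem_nhds hε), eventually_gt_atTop 0] with n hn hn0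
  have hn' : (0 : ℝ) < n := by exact_mod_cast hn0
  calc shannonEntropy ρ (itinerary T P n) / n ≤ shannonEntropy ρ P / n := by
        gcongr
        exact hbound n hn0
    _ ≤ ε := hn
    _ = 0 + ε := by ring

end

end Pool.Agent.N252.HC
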